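import Pool.Agent.Work.MP_80ff4e_al.Interface3

/-!
# Block TOP: the interface between its two halves

`Stmt_TOPa` (helper41): the combinatorial half.  `Stmt_TOP` is deduced from it by helper80.
-/

set_option autoImplicit false

open Polynomial unitInterval

namespace PCF

/-- TOPa: coding of the tree by words, self-similarity, loops and sections. -/
def Stmt_TOPa : Prop :=
  ∀ (f : ℂ[X]) (t : ℂ), 2 ≤ f.natDegree → (postCrit f).Finite → t ∉ postCrit f →
    ∃ (X : Type) (_ : Fintype X) (S : SelfSim (IMG f t) X) (Λ : List X ≃ Vertex f t),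
      Fintype.card X = f.natDegree ∧
      (∀ w, (Λ w).1.1 = w.length) ∧ (∀ v w, v <+: w ↔ InSubtree (Λ v) (Λ w)) ∧
      (∀ (g : IMG f t) (w), Λ (S.wact g w) = g.1 (Λ w)) ∧
      S.Faithful ∧ S.SelfRep ∧
      -- elements of the group and loops
      (∀ g : IMG f t, ∃ γ : Path t t, Av (postCrit f) γ ∧
        ∀ w, Tr f w.length γ (Λ w).1.2 (g.1 (Λ w)).1.2) ∧
      (∀ γ : Path t t, Av (postCrit f) γ → ∃ g : IMG f t,
        ∀ w, Tr f w.length γ (Λ w).1.2 (g.1 (Λ w)).1.2) ∧
      -- the maps `u ↦ w ++ u` are transports along a path from `t` to the vertex `w`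
      (∀ w : List X, ∃ ℓ : Path t (Λ w).1.2, Av (postCrit f) ℓ ∧
        ∀ u : List X, Tr f u.length ℓ (Λ u).1.2 (Λ (w ++ u)).1.2)

end PCF
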