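import Pool.Agent.Work.MP_80ff4e_al_helper80.TOP
import Pool.Agent.Work.MP_80ff4e_al_helper41.TOPa
import Pool.Agent.Work.MP_80ff4e_al_helper41.SM
import Pool.Agent.Work.MP_80ff4e_al_helper41.BIG
import Pool.Agent.Work.MP_80ff4e_al_helper39.TR
import Pool.Agent.Work.MP_80ff4e_al_helper39.GEN
import Pool.Agent.Work.MP_80ff4e_al_helper82.L

/-!
# Blocks LC and TOP without hypotheses
-/

set_option autoImplicit false

namespace PCF

open SM BIG

theorem stmt_LC : Stmt_LC := H80.stmt_LC_of stmt_TR (stmt_SM stmt_TR) stmt_L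

theorem stmt_TOP : Stmt_TOP :=
  H80.stmt_TOP_of (TOPa.stmt_TOPa_of stmt_TR stmt_L) stmt_TR (stmt_SM stmt_TR) stmt_LC stmt_GEN
    (stmt_BIG stmt_TR) stmt_L

end PCF
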