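import Pool.Agent.Work.MP_80ff4e_al.Interface4

/-!
# Block JS: existence of the data at the step `j`
-/

set_option autoImplicit false

open Polynomial

namespace PCF.JS80

lemma cancel {R S Q : ℂ[X]} (hQ : 1 ≤ Q.natDegree) (h : R.comp Q = S.comp Q) : R = S := by
  have h1 : (R - S).comp Q = 0 := by rw [sub_comp, h, sub_self]
  rcases comp_eq_zero_iff.1 h1 with h2 | ⟨_, h2⟩
  · exact sub_eq_zero.1 h2
  · rw [h2, natDegree_C] at hQ
    omega

lemma itp_zero (f : ℂ[X]) : itp f 0 = X := rfl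

lemma itp_succ (f : ℂ[X]) (n : ℕ) : itp f (n + 1) = f.comp (itp f n) := by
  unfold itp
  rw [Function.iterate_succ_apply']

lemma itp_add (f : ℂ[X]) (m n : ℕ) : itp f (m + n) = (itp f m).comp (itp f n) := by
  induction m with
  | zero => rw [Nat.zero_add, itp_zero, X_comp]
  | succ m ih => rw [Nat.succ_add, itp_succ, itp_succ, ih, comp_assoc]

lemma itp_natDegree (f : ℂ[X]) (n : ℕ) : (itp f n).natDegree = f.natDegree ^ n := by
  induction n with
  | zero => rw [itp_zero, natDegree_X, pow_zero]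
  | succ n ih => rw [itp_succ, natDegree_comp, ih, pow_succ, mul_comm]

lemma itp_semi (α u : ℂ[X]) (j : ℕ) :
    (itp (u.comp α) j).comp u = u.comp (itp (α.comp u) j) := by
  induction j with
  | zero => rw [itp_zero, itp_zero, X_comp, comp_X]
  | succ n ih =>
    rw [itp_succ, itp_succ, comp_assoc, ih]
    simp only [comp_assoc]

/-- right factors of `f ^ m` are right factors of `f ^ M`, `M ≥ m` -/
lemma lift_factor {f A E : ℂ[X]} {m M : ℕ} (hm : m ≤ M) (h : itp f m = A.comp E) :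
    itp f M = ((itp f (M - m)).comp A).comp E := by
  obtain ⟨k, rfl⟩ := Nat.exists_eq_add_of_le hm
  have h1 : m + k - m = k := by omega
  rw [h1, Nat.add_comm, itp_add, h, comp_assoc]

lemma pow_eq_comp (q : ℂ[X]) (p : ℕ) : q ^ p = (X ^ p : ℂ[X]).comp q := by
  rw [pow_comp, X_comp]

theorem main (hRL : Stmt_RL) (hGI : Stmt_GI) (hMV : Stmt_MV) : Stmt_JS := by
  intro f P hA p m a α γ X₁ Y hp hH hm j hj
  have hd2 : 2 ≤ f.natDegree := hA.deg
  set u : ℂ[X] := γ ^ p with hu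
  have hf : f = α.comp u := hH.f_eq
  have hdeg : f.natDegree = α.natDegree * u.natDegree := by rw [hf, natDegree_comp]
  have hα : 1 ≤ α.natDegree := by
    rcases Nat.eq_zero_or_pos α.natDegree with h | h
    · rw [h, Nat.zero_mul] at hdeg
      omega
    · exact h
  have hu1 : 1 ≤ u.natDegree := by
    rcases Nat.eq_zero_or_pos u.natDegree with h | h
    · rw [h, Nat.mul_zero] at hdeg
      omega
    · exact h
  have hudeg : u.natDegree = p * γ.natDegree := by rw [hu, natDegree_pow]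
  have hγ : 1 ≤ γ.natDegree := by
    rcases Nat.eq_zero_or_pos γ.natDegree with h | h
    · rw [h, Nat.mul_zero] at hudeg
      omega
    · exact h
  have hx : 1 ≤ X₁.natDegree := by
    rcases Nat.eq_zero_or_pos X₁.natDegree with h | h
    · exact absurd (h ▸ dvd_zero p) hH.ndvd
    · exact h
  have hp0 : 0 < p := hp.pos
  have hYdeg : Y.natDegree = X₁.natDegree := by
    have h := congrArg natDegree hH.XY
    rw [natDegree_pow, natDegree_comp, natDegree_X_pow, Nat.mul_comm] at h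
    exact (Nat.eq_of_mul_eq_mul_right hp0 h).symm
  set d := f.natDegree with hd
  set x := X₁.natDegree with hxd
  have huX : u = (X ^ p : ℂ[X]).comp γ := pow_eq_comp γ p
  -- the iterates of `g`
  have hsemi : (itp (u.comp α) j).comp u = u.comp (itp f j) := by
    rw [itp_semi, ← hf]
  -- everything is a right factor of `f ^ M`
  obtain ⟨M, hmM, hjM⟩ : ∃ M, m ≤ M ∧ j + 1 ≤ M := ⟨max m (j + 1), le_max_left _ _, le_max_right _ _⟩
  have h1M : 1 ≤ M := by omega
  have F1 : itp f m = a.comp (Y.comp u) := by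
    rw [hm, pow_eq_comp, ← comp_assoc (X ^ p) X₁ γ, ← pow_eq_comp, hH.XY, comp_assoc, ← huX]
  have F1' := lift_factor hmM F1
  have F2 : itp f (j + 1) = α.comp (u.comp (itp f j)) := by
    rw [itp_succ, ← comp_assoc, ← hf]
  have F2' := lift_factor hjM F2
  have F3 : itp f 1 = α.comp u := by
    rw [itp_succ, itp_zero, comp_X]
    exact hf
  have F3' := lift_factor h1M F3
  have F4 : itp f m = (a.comp (X ^ p)).comp (X₁.comp γ) := by
    rw [hm, comp_assoc, ← pow_eq_comp]
  have F4' := lift_factor hmM F4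
  have F5 : itp f (j + 1) = (α.comp (X ^ p)).comp (γ.comp (itp f j)) := by
    rw [F2, huX]
    simp only [comp_assoc]
  have F5' := lift_factor hjM F5
  have F6 : itp f 1 = (α.comp (X ^ p)).comp γ := by
    rw [F3, huX, comp_assoc]
  have F6' := lift_factor h1M F6
  -- the number `x_j`
  set xj := Nat.gcd x (d ^ j) with hxj
  have hxj1 : 1 ≤ xj := Nat.gcd_pos_of_pos_left _ hx
  have hxjx : xj ∣ x := Nat.gcd_dvd_left _ _
  have hxjd : xj ∣ d ^ j := Nat.gcd_dvd_right _ _
  have hpxj : ¬ p ∣ xj := fun h => hH.ndvd (h.trans hxjx)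
  have hYu : (Y.comp u).natDegree = u.natDegree * x := by
    rw [natDegree_comp, hYdeg, Nat.mul_comm]
  have hufj : (u.comp (itp f j)).natDegree = u.natDegree * d ^ j := by
    rw [natDegree_comp, itp_natDegree]
  -- the gcd factor
  obtain ⟨⟨Gj, U₁, U₂, hG1, hG2, hGdeg⟩, ⟨L, V₁, V₂, W, hL1, hL2, -, hLdeg⟩, -⟩ :=
    hRL f P hA M _ _ _ _ F1' F2'
  rw [hYu, hufj, Nat.gcd_mul_left] at hGdeg
  rw [hYu, hufj, Nat.lcm_mul_left] at hLdeg
  have FG : itp f M = (((itp f (M - m)).comp a).comp U₁).comp Gj := by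
    rw [F1', hG1, ← comp_assoc]
  obtain ⟨Yj', hYj'⟩ := (hRL f P hA M _ _ _ _ F3' FG).2.2 (by
    rw [hGdeg]; exact Dvd.intro _ rfl)
  have hYj'deg : Yj'.natDegree = xj := by
    have h := congrArg natDegree hYj'
    rw [hGdeg, natDegree_comp, Nat.mul_comm] at h
    exact (Nat.eq_of_mul_eq_mul_right hu1 h).symm
  -- the small gcd factor
  have hXγ : (X₁.comp γ).natDegree = γ.natDegree * x := by
    rw [natDegree_comp, Nat.mul_comm]
  have hγfj : (γ.comp (itp f j)).natDegree = γ.natDegree * d ^ j := by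
    rw [natDegree_comp, itp_natDegree]
  obtain ⟨⟨Hj, T₁, T₂, hH1, hH2, hHdeg⟩, -, -⟩ := hRL f P hA M _ _ _ _ F4' F5'
  rw [hXγ, hγfj, Nat.gcd_mul_left] at hHdeg
  have FH : itp f M = (((itp f (M - m)).comp (a.comp (X ^ p))).comp T₁).comp Hj := by
    rw [F4', hH1, ← comp_assoc]
  obtain ⟨Xj', hXj'⟩ := (hRL f P hA M _ _ _ _ F6' FH).2.2 (by
    rw [hHdeg]; exact Dvd.intro _ rfl)
  have hXj'deg : Xj'.natDegree = xj := by
    have h := congrArg natDegree hXj'
    rw [hHdeg, natDegree_comp, Nat.mul_comm] at h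
    exact (Nat.eq_of_mul_eq_mul_right hγ h).symm
  obtain ⟨Bj, hBj⟩ := (hRL f P hA M _ _ _ _ FH FG).2.2 (by
    rw [hHdeg, hGdeg, hudeg, Nat.mul_assoc]; exact Dvd.intro_left _ rfl)
  have hBjdeg : Bj.natDegree = p := by
    have h := congrArg natDegree hBj
    rw [hGdeg, natDegree_comp, hHdeg, hudeg, Nat.mul_assoc] at h
    exact (Nat.eq_of_mul_eq_mul_right (Nat.mul_pos hγ hxj1) h).symm
  have hkey : Bj.comp Xj' = Yj'.comp (X ^ p) := by
    refine cancel hγ ?_
    rw [comp_assoc, ← hXj', ← hBj, hYj', comp_assoc, ← huX]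
  obtain ⟨c, β, hc, hB⟩ := hMV.2 p Xj' Yj' Bj hp hBjdeg (hXj'deg ▸ hpxj) hkey
  have hβ : Yj'.comp (X ^ p) = C c * (Xj' - C (Xj'.eval 0)) ^ p + C β := by
    rw [← hkey]
    conv_lhs => rw [hB]
    simp
  -- definitions
  have hX1 : X₁ = T₁.comp Xj' := by
    refine cancel hγ ?_
    rw [hH1, hXj', comp_assoc]
  have hY1 : Y = U₁.comp Yj' := by
    refine cancel hu1 ?_
    rw [hG1, hYj', comp_assoc]
  have hg1 : itp (u.comp α) j = U₂.comp Yj' := by
    refine cancel hu1 ?_
    rw [hsemi, hG2, hYj', comp_assoc]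
  have hYjc : (X + C β : ℂ[X]).comp (Yj' - C β) = Yj' := by simp
  have hXjc : (X + C (Xj'.eval 0) : ℂ[X]).comp (Xj' - C (Xj'.eval 0)) = Xj' := by simp
  have hb_eq : itp (u.comp α) j = (U₂.comp (X + C β)).comp (Yj' - C β) := by
    rw [comp_assoc, hYjc, hg1]
  have hD_eq : Y = (U₁.comp (X + C β)).comp (Yj' - C β) := by
    rw [comp_assoc, hYjc, ← hY1]
  have hYjdeg : (Yj' - C β).natDegree = xj := by
    rw [natDegree_sub_C, hYj'deg]
  have hXjdeg : (Xj' - C (Xj'.eval 0)).natDegree = xj := by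
    rw [natDegree_sub_C, hXj'deg]
  have hYX : (Yj' - C β).comp (X ^ p) = C c * (Xj' - C (Xj'.eval 0)) ^ p := by
    rw [sub_comp, hβ, C_comp, add_sub_cancel_right]
  -- degrees
  have hgdeg : (itp (u.comp α) j).natDegree = d ^ j := by
    rw [itp_natDegree, natDegree_comp, hdeg, Nat.mul_comm]
  have hbdeg : (U₂.comp (X + C β)).natDegree * xj = d ^ j := by
    have h := congrArg natDegree hb_eq
    rw [natDegree_comp (p := U₂.comp (X + C β)), hYjdeg, hgdeg] at h
    exact h.symm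
  have hDdeg : (U₁.comp (X + C β)).natDegree * xj = x := by
    have h := congrArg natDegree hD_eq
    rw [natDegree_comp (p := U₁.comp (X + C β)), hYjdeg, hYdeg] at h
    exact h.symm
  have hV1deg : V₁.natDegree * x = Nat.lcm x (d ^ j) := by
    have h := congrArg natDegree hL1
    rw [hLdeg, natDegree_comp, hYu, Nat.mul_left_comm] at h
    exact (Nat.eq_of_mul_eq_mul_left hu1 h).symm
  have hV2deg : V₂.natDegree * d ^ j = Nat.lcm x (d ^ j) := by
    have h := congrArg natDegree hL2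
    rw [hLdeg, natDegree_comp, hufj, Nat.mul_left_comm] at h
    exact (Nat.eq_of_mul_eq_mul_left hu1 h).symm
  have hlcm : xj * Nat.lcm x (d ^ j) = x * d ^ j := Nat.gcd_mul_lcm x (d ^ j)
  have hdj : 0 < d ^ j := by positivity
  refine ⟨U₂.comp (X + C β), Yj' - C β, Xj' - C (Xj'.eval 0), U₁.comp (X + C β),
    T₁.comp (X + C (Xj'.eval 0)), V₂, V₁, c, ?_⟩
  refine ⟨hc, hb_eq, hD_eq, ?_, hYX, ?_, ?_, ?_, ?_, ?_, ?_⟩
  · -- Yj0
    have h := congrArg (eval 0) hYX
    rw [eval_comp, eval_pow, eval_X, zero_pow hp0.ne', eval_mul, eval_pow (p := Xj' - C _)] at h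
    rw [h]
    simp [hp0.ne']
  · -- DZ
    refine cancel (Q := Xj' - C (Xj'.eval 0)) (by rw [hXjdeg]; exact hxj1) ?_
    have h1 : (C c * X ^ p : ℂ[X]).comp (Xj' - C (Xj'.eval 0)) = (Yj' - C β).comp (X ^ p) := by
      rw [hYX, mul_comp, C_comp, pow_comp, X_comp]
    rw [comp_assoc, h1, ← comp_assoc, ← hD_eq, ← hH.XY, pow_comp, comp_assoc, hXjc, ← hX1]
  · rw [hYjdeg, hYdeg]
  · -- sq
    refine cancel (Q := Yj' - C β) (by rw [hYjdeg]; exact hxj1) ?_
    rw [comp_assoc, ← hb_eq, comp_assoc, ← hD_eq]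
    refine cancel hu1 ?_
    rw [comp_assoc, hsemi, ← hL2, hL1, comp_assoc]
  · -- degA
    refine Nat.eq_of_mul_eq_mul_right (Nat.mul_pos hxj1 hdj) ?_
    calc V₂.natDegree * (xj * d ^ j) = xj * (V₂.natDegree * d ^ j) := by ring
      _ = x * d ^ j := by rw [hV2deg, hlcm]
      _ = (U₁.comp (X + C β)).natDegree * xj * d ^ j := by rw [hDdeg]
      _ = _ := by ring
  · -- degC
    refine Nat.eq_of_mul_eq_mul_right (Nat.mul_pos hxj1 hx) ?_
    calc (U₂.comp (X + C β)).natDegree * (xj * x)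
        = (U₂.comp (X + C β)).natDegree * xj * x := by ring
      _ = xj * Nat.lcm x (d ^ j) := by rw [hbdeg, hlcm, Nat.mul_comm]
      _ = V₁.natDegree * (xj * x) := by rw [← hV1deg]; ring
  · -- fin
    refine hGI f P hA M ((itp f (M - (j + 1))).comp α) (U₂.comp (X + C β))
      ((itp f (M - m)).comp a) (U₁.comp (X + C β)) ((Yj' - C β).comp u) ?_ ?_ ?_
    · rw [← comp_assoc (U₂.comp (X + C β)), ← hb_eq, hsemi]
      exact F2'
    · rw [← comp_assoc (U₁.comp (X + C β)), ← hD_eq]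
      exact F1'
    · have h1 : (U₂.comp (X + C β)).natDegree = d ^ j / xj := by
        rw [← hbdeg, Nat.mul_div_cancel _ hxj1]
      have h2 : (U₁.comp (X + C β)).natDegree = x / xj := by
        rw [← hDdeg]
        exact (Nat.mul_div_cancel _ hxj1).symm
      rw [h1, h2]
      exact (Nat.coprime_div_gcd_div_gcd hxj1).symm

end PCF.JS80

namespace PCF

theorem stmt_JS (hRL : Stmt_RL) (hGI : Stmt_GI) (hMV : Stmt_MV) : Stmt_JS :=
  JS80.main hRL hGI hMV

end PCF
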