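import Pool.Agent.Work.MP_80ff4e_al_helper80.RLa
import Pool.Agent.Work.MP_80ff4e_al_helper41.BIG
import Pool.Agent.Work.MP_80ff4e_al_helper3.P1
import Pool.Agent.Work.MP_80ff4e_al.Interface4

/-!
# Block RL: the lattice of right factors of the iterates of `f`
-/

set_option autoImplicit false

open Polynomial unitInterval Filter Topology
open scoped IsMulCommutative

namespace PCF.RL80

open PCF PCF.P1

variable {f : ℂ[X]} {P : Set ℂ} {t : ℂ} {N : ℕ}

/-! ### Right factors and transport -/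

lemma deriv_ne {A E : ℂ[X]} (hA : Adm f P) (h : itp f N = A.comp E) {z : ℂ} (hz : it f N z ∉ P) :
    A.derivative.eval (E.eval z) ≠ 0 ∧ E.derivative.eval z ≠ 0 := by
  have h1 : (itp f N).derivative.eval z ≠ 0 := fun h0 => hz (hA.it_crit N h0)
  rw [h, derivative_comp, eval_mul, eval_comp] at h1
  exact ⟨right_ne_zero_of_mul h1, left_ne_zero_of_mul h1⟩

lemma it_eq {A E : ℂ[X]} (h : itp f N = A.comp E) (z : ℂ) : it f N z = A.eval (E.eval z) := by
  rw [← itp_eval, h, eval_comp]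

lemma deg_pos (hA : Adm f P) {A E : ℂ[X]} (h : itp f N = A.comp E) : 1 ≤ E.natDegree := by
  have h1 := one_le_deg (n := N) hA
  rw [h, natDegree_comp] at h1
  exact Nat.pos_of_mul_pos_left h1
where
  Nat.pos_of_mul_pos_left {a b : ℕ} (h : 1 ≤ a * b) : 1 ≤ b := by
    rcases Nat.eq_zero_or_pos b with h0 | h0
    · rw [h0, Nat.mul_zero] at h; omega
    · exact h0

/-- a right factor is compatible with the transport -/
lemma tr_factor (hA : Adm f P) {A E : ℂ[X]} (h : itp f N = A.comp E) {a b : ℂ} {γ : Path a b}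
    (hγ : Av P γ) {x x' y y' : ℂ} (hx : Tr f N γ x x') (hy : Tr f N γ y y')
    (hxy : E.eval x = E.eval y) : E.eval x' = E.eval y' := by
  obtain ⟨Γ, hΓ⟩ := hx
  obtain ⟨Δ, hΔ⟩ := hy
  have hcΓ : Continuous fun s => E.eval (Γ s) := E.continuous.comp Γ.continuous
  have hcΔ : Continuous fun s => E.eval (Δ s) := E.continuous.comp Δ.continuous
  have hclosed : IsClosed {s : I | E.eval (Γ s) = E.eval (Δ s)} := isClosed_eq hcΓ hcΔ
  have hopen : IsOpen {s : I | E.eval (Γ s) = E.eval (Δ s)} := by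
    rw [isOpen_iff_mem_nhds]
    intro s₀ hs₀
    have hs₀' : E.eval (Γ s₀) = E.eval (Δ s₀) := hs₀
    have hne : A.derivative.eval (E.eval (Γ s₀)) ≠ 0 :=
      (deriv_ne hA h (z := Γ s₀) (by rw [hΓ]; exact hγ s₀)).1
    let e := (A.hasStrictDerivAt (E.eval (Γ s₀))).hasStrictFDerivAt_equiv hne
      |>.toOpenPartialHomeomorph (fun z => A.eval z)
    have he : (e : ℂ → ℂ) = fun z => A.eval z := rfl
    have hsrc : E.eval (Γ s₀) ∈ e.source := HasStrictFDerivAt.mem_toOpenPartialHomeomorph_source _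
    have hsrc' : E.eval (Δ s₀) ∈ e.source := by rw [← hs₀']; exact hsrc
    have h1 : ∀ᶠ s in 𝓝 s₀, E.eval (Γ s) ∈ e.source :=
      hcΓ.continuousAt.eventually (e.open_source.mem_nhds hsrc)
    have h2 : ∀ᶠ s in 𝓝 s₀, E.eval (Δ s) ∈ e.source :=
      hcΔ.continuousAt.eventually (e.open_source.mem_nhds hsrc')
    filter_upwards [h1, h2] with s h3 h4
    refine e.injOn h3 h4 ?_
    rw [he]
    simp only
    rw [← it_eq h, ← it_eq h, hΓ, hΔ]
  have huniv := IsClopen.eq_univ ⟨hclosed, hopen⟩ ⟨0, by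
    show E.eval (Γ 0) = E.eval (Δ 0)
    rw [Γ.source, Δ.source]
    exact hxy⟩
  have h1 : (1 : I) ∈ {s : I | E.eval (Γ s) = E.eval (Δ s)} := by rw [huniv]; trivial
  have h2 : E.eval (Γ 1) = E.eval (Δ 1) := h1
  rwa [Γ.target, Δ.target] at h2

lemma card_fibre' (hA : Adm f P) {A E : ℂ[X]} (h : itp f N = A.comp E) {x : ℂ}
    (hx : it f N x ∉ P) : (fibre E (E.eval x)).card = E.natDegree := by
  have hE := deg_pos hA h
  rw [← LD.sum_ldeg hE (E.eval x), Finset.card_eq_sum_ones]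
  refine Finset.sum_congr rfl fun u hu => ?_
  rw [LD.mem_fibre hE] at hu
  have h1 : it f N u ∉ P := by
    rw [it_eq h, hu, ← it_eq h]
    exact hx
  have h2 := (deriv_ne hA h h1).2
  have h3 : ¬ 2 ≤ ldeg E u := fun h0 => h2 ((stmt_L.2.2.2.2.2.2.1 E hE u).1 h0)
  have h4 := LD.ldeg_pos hE u
  omega

/-- a polynomial that is constant on the fibres of a right factor factors through it -/
lemma factor_of (hPA2 : Stmt_PA2) (hA : Adm f P) {A₁ E₁ : ℂ[X]} (h₁ : itp f N = A₁.comp E₁)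
    (E₂ : ℂ[X]) (h : ∀ u v, it f N u ∉ P → E₁.eval u = E₁.eval v → E₂.eval u = E₂.eval v) :
    ∃ V : ℂ[X], E₂ = V.comp E₁ := by
  have hE := deg_pos hA h₁
  refine hPA2 E₁ E₂ hE ?_
  intro hfinS
  have hU : ({z | it f N z ∈ P}ᶜ).Infinite := (finite_preimage (n := N) hA).infinite_compl
  apply hU
  refine (Set.Finite.preimage' (f := fun x => E₁.eval x) hfinS ?_).subset ?_
  · intro y _
    have h1 : (fun x => E₁.eval x) ⁻¹' {y} = (fibre E₁ y : Set ℂ) := by
      ext z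
      simp only [Set.mem_preimage, Set.mem_singleton_iff, Finset.mem_coe]
      rw [LD.mem_fibre hE]
    rw [h1]
    exact Finset.finite_toSet _
  · intro x hx
    have hxP : it f N x ∉ P := hx
    refine ⟨card_fibre' hA h₁ hxP, fun u v hu hv => ?_⟩
    have hu' : it f N u ∉ P := by
      rw [it_eq h₁, hu, ← it_eq h₁]
      exact hxP
    exact h u v hu' (hu.trans hv.symm)

/-! ### The fibre -/

/-- the fibre over the base point -/
def Fib (f : ℂ[X]) (N : ℕ) (t : ℂ) : Type := {x : ℂ // it f N x = t}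

lemma fib_finite (hA : Adm f P) : Finite (Fib f N t) := by
  have h1 : {x : ℂ | it f N x = t} = (fibre (itp f N) t : Set ℂ) := by
    ext z
    rw [Finset.mem_coe, LD.mem_fibre (one_le_deg hA), itp_eval]
    rfl
  have h2 : {x : ℂ | it f N x = t}.Finite := by rw [h1]; exact Finset.finite_toSet _
  exact h2.to_subtype

/-- the permutation of the fibre given by a loop -/
lemma exists_perm (hA : Adm f P) (N : ℕ) (γ : Path t t) (hγ : Av P γ) :
    ∃ π : Equiv.Perm (Fib f N t), ∀ x, Tr f N γ x.1 (π x).1 := by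
  have hex : ∀ (γ : Path t t), Av P γ → ∀ x : Fib f N t, ∃ y : Fib f N t, Tr f N γ x.1 y.1 := by
    intro γ hγ x
    obtain ⟨y, hy⟩ := tr_exists hA N γ hγ x.1 x.2
    exact ⟨⟨y, (tr_ends hy).2⟩, hy⟩
  choose φ hφ using hex γ hγ
  choose ψ hψ using hex γ.symm (av_symm hγ)
  refine ⟨⟨φ, ψ, fun x => ?_, fun x => ?_⟩, hφ⟩
  · exact Subtype.ext (tr_unique hA (av_symm hγ) (hψ (φ x)) (tr_symm (hφ x)))
  · exact Subtype.ext (tr_unique hA hγ (hφ (ψ x)) (tr_symm_iff.1 (hψ x)))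

/-- relation on the fibre given by a right factor -/
def relE (f : ℂ[X]) (N : ℕ) (t : ℂ) (E : ℂ[X]) : Setoid (Fib f N t) :=
  Setoid.ker (fun x => E.eval x.1)

/-- invariance under all loops -/
def InvL (P : Set ℂ) (r : Setoid (Fib f N t)) : Prop :=
  ∀ (γ : Path t t), Av P γ → ∀ x x' y y' : Fib f N t, r x y → Tr f N γ x.1 x'.1 →
    Tr f N γ y.1 y'.1 → r x' y'

lemma invL_relE (hA : Adm f P) {A E : ℂ[X]} (h : itp f N = A.comp E) :
    InvL P (relE f N t E) := by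
  intro γ hγ x x' y y' hxy hx hy
  exact tr_factor hA h hγ hx hy hxy

lemma invL_inf {r₁ r₂ : Setoid (Fib f N t)} (h₁ : InvL P r₁) (h₂ : InvL P r₂) :
    InvL P (r₁ ⊓ r₂) :=
  fun γ hγ x x' y y' hxy hx hy =>
    ⟨h₁ γ hγ x x' y y' hxy.1 hx hy, h₂ γ hγ x x' y y' hxy.2 hx hy⟩

lemma invL_sup (hA : Adm f P) {r₁ r₂ : Setoid (Fib f N t)} (h₁ : InvL P r₁) (h₂ : InvL P r₂) :
    InvL P (r₁ ⊔ r₂) := by
  intro γ hγ x x' y y' hxy hx hy
  obtain ⟨π, hπ⟩ := exists_perm hA N γ hγ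
  have hle : r₁ ⊔ r₂ ≤ Setoid.comap π (r₁ ⊔ r₂) := by
    refine sup_le (fun a b h => ?_) (fun a b h => ?_)
    · exact (le_sup_left : r₁ ≤ r₁ ⊔ r₂) (h₁ γ hγ a _ b _ h (hπ a) (hπ b))
    · exact (le_sup_right : r₂ ≤ r₁ ⊔ r₂) (h₂ γ hγ a _ b _ h (hπ a) (hπ b))
  have h3 : (r₁ ⊔ r₂) (π x) (π y) := hle hxy
  have hx' : π x = x' := Subtype.ext (tr_unique hA hγ (hπ x) hx)
  have hy' : π y = y' := Subtype.ext (tr_unique hA hγ (hπ y) hy)
  rwa [hx', hy'] at h3

/-- extension of a relation on the fibre to the plane -/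
def ext (r : Setoid (Fib f N t)) : Setoid ℂ where
  r x y := x = y ∨ ∃ (hx : it f N x = t) (hy : it f N y = t), r ⟨x, hx⟩ ⟨y, hy⟩
  iseqv := {
    refl := fun x => Or.inl rfl
    symm := by
      rintro x y (h | ⟨hx, hy, h⟩)
      · exact Or.inl h.symm
      · exact Or.inr ⟨hy, hx, r.symm h⟩
    trans := by
      rintro x y z (rfl | ⟨hx, hy, h⟩) (rfl | ⟨hy', hz, h'⟩)
      · exact Or.inl rfl
      · exact Or.inr ⟨hy', hz, h'⟩
      · exact Or.inr ⟨hx, hy, h⟩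
      · exact Or.inr ⟨hx, hz, r.trans h h'⟩ }

lemma ext_iff' (r : Setoid (Fib f N t)) (x y : Fib f N t) : ext r x.1 y.1 ↔ r x y := by
  constructor
  · rintro (h | ⟨hx, hy, h⟩)
    · have : x = y := Subtype.ext h
      rw [this]
    · exact h
  · intro h
    exact Or.inr ⟨x.2, y.2, h⟩

lemma inv_ext (hA : Adm f P) {r : Setoid (Fib f N t)} (hr : InvL P r) : Inv f P t N (ext r) := by
  intro γ hγ x x' y y' hxy hx hy
  rcases hxy with rfl | ⟨hx0, hy0, h⟩
  · exact Or.inl (tr_unique hA hγ hx hy)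
  · exact Or.inr ⟨(tr_ends hx).2, (tr_ends hy).2,
      hr γ hγ ⟨x, hx0⟩ ⟨x', (tr_ends hx).2⟩ ⟨y, hy0⟩ ⟨y', (tr_ends hy).2⟩ h hx hy⟩

/-- the right factor given by an invariant relation -/
lemma factor_exists (hPA2 : Stmt_PA2) (hA : Adm f P) (ht : t ∉ P) {r : Setoid (Fib f N t)}
    (hr : InvL P r) (x₀ : Fib f N t) :
    ∃ E A : ℂ[X], itp f N = A.comp E ∧ E.natDegree = Nat.card {y // r y x₀} ∧
      (∀ (x y : ℂ) (a b : Fib f N t) (c : ℂ) (γ : Path t c), Av P γ → Tr f N γ a.1 x →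
        Tr f N γ b.1 y → (E.eval x = E.eval y ↔ r a b)) := by
  classical
  obtain ⟨E, A, -, h1, h2, h3⟩ := P1core (n := N) hPA2 hA ht (inv_ext hA hr)
  refine ⟨E, A, h1, ?_, ?_⟩
  · have hx₀ : it f N x₀.1 ∉ P := by rw [x₀.2]; exact ht
    obtain ⟨-, h4⟩ := h3 x₀.1 hx₀
    rw [← h4]
    symm
    rw [← Nat.card_eq_finsetCard]
    refine Nat.card_congr (Equiv.ofBijective (fun y => ⟨y.1.1, ?_⟩) ⟨?_, ?_⟩)
    · rw [mem_B hA, rel_base ht (inv_ext hA hr) x₀.2 y.1.2, ext_iff']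
      exact r.symm y.2
    · intro a b hab
      exact Subtype.ext (Subtype.ext (congrArg (fun z => z.1) hab))
    · rintro ⟨y, hy⟩
      rw [mem_B hA] at hy
      have hyt : it f N y = t := by rw [← hy.eq, x₀.2]
      rw [rel_base ht (inv_ext hA hr) x₀.2 hyt] at hy
      have h5 := (ext_iff' r x₀ ⟨y, hyt⟩).1 hy
      exact ⟨⟨⟨y, hyt⟩, r.symm h5⟩, rfl⟩
  · intro x y a b c γ hγ ha hb
    have hc : c ∉ P := by
      have := hγ 1
      rwa [γ.target] at this
    have hx : it f N x ∉ P := by rw [(tr_ends ha).2]; exact hc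
    rw [eq_comm, h2 x hx y]
    constructor
    · intro h
      exact (ext_iff' r a b).1 (h.key (inv_ext hA hr) γ hγ ha hb)
    · intro h
      exact ⟨c, γ, hγ, a.1, b.1, (ext_iff' r a b).2 h, ha, hb⟩

/-! ### The cyclic group -/

lemma regular (π : Equiv.Perm (Fib f N t)) (htr : ∀ x y, ∃ j : ℕ, (π ^ j) x = y)
    (x₀ : Fib f N t) :
    Function.Bijective (fun g : Subgroup.zpowers π => g • x₀) := by
  constructor
  · intro a b hab
    have hab' : a • x₀ = b • x₀ := hab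
    apply Subtype.ext
    apply Equiv.ext
    intro y
    obtain ⟨j, hj⟩ := htr x₀ y
    let c : Subgroup.zpowers π := ⟨π ^ j, Subgroup.npow_mem_zpowers π j⟩
    have hc : c • x₀ = y := hj
    show a • y = b • y
    rw [← hc, ← mul_smul, ← mul_smul, mul_comm a c, mul_comm b c, mul_smul, mul_smul, hab']
  · intro y
    obtain ⟨j, hj⟩ := htr x₀ y
    exact ⟨⟨π ^ j, Subgroup.npow_mem_zpowers π j⟩, hj⟩

/-- elements of the subgroup preserve an invariant relation -/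
lemma invS_of (π : Equiv.Perm (Fib f N t)) (r : Setoid (Fib f N t))
    (h : ∀ x y, r x y ↔ r (π x) (π y)) : InvS (Subgroup.zpowers π) r := by
  have hle : Subgroup.zpowers π ≤ ({
      carrier := {c | ∀ x y, r x y ↔ r (c x) (c y)}
      mul_mem' := fun {a b} ha hb x y => (hb x y).trans (ha _ _)
      one_mem' := fun x y => Iff.rfl
      inv_mem' := fun {a} ha x y => by
        have h1 := ha (a⁻¹ x) (a⁻¹ y)
        have h2 : a (a⁻¹ x) = x := a.apply_symm_apply x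
        have h3 : a (a⁻¹ y) = y := a.apply_symm_apply y
        rw [h2, h3] at h1
        exact h1.symm } : Subgroup (Equiv.Perm (Fib f N t))) := by
    rw [Subgroup.zpowers_le]
    exact h
  intro g x y hxy
  exact (hle g.2 x y).1 hxy

lemma pw_perm (θ : Path t t) (π : Equiv.Perm (Fib f N t))
    (hπ : ∀ x, Tr f N θ x.1 (π x).1) (j : ℕ) (x : Fib f N t) :
    Tr f N (pw θ j) x.1 ((π ^ j) x).1 := by
  induction j with
  | zero => exact tr_refl x.2
  | succ j ih =>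
    rw [pow_succ', Equiv.Perm.mul_apply]
    exact tr_trans ih (hπ _)

lemma av_pw (ht : t ∉ P) (θ : Path t t) (hθ : Av P θ) (j : ℕ) : Av P (pw θ j) := by
  induction j with
  | zero => exact fun _ => ht
  | succ j ih => exact av_trans ih hθ

theorem main (hPA2 : Stmt_PA2) (hTR : Stmt_TR) : Stmt_RL := by
  classical
  intro f P hA N A₁ E₁ A₂ E₂ h₁ h₂
  obtain ⟨t, ht⟩ : ∃ t : ℂ, t ∉ P := hA.fin.infinite_compl.nonempty
  have hfin : Finite (Fib f N t) := fib_finite hA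
  obtain ⟨θ, hθ, hθ'⟩ := BIG.stmt_BIG hTR f P hA t ht
  obtain ⟨π, hπ⟩ := exists_perm hA N θ hθ
  have htr : ∀ x y : Fib f N t, ∃ j : ℕ, (π ^ j) x = y := by
    intro x y
    obtain ⟨j, hj⟩ := hθ' N x.1 y.1 x.2 y.2
    exact ⟨j, Subtype.ext (tr_unique hA (av_pw ht θ hθ j) (pw_perm θ π hπ j x) hj)⟩
  obtain ⟨x₀⟩ : Nonempty (Fib f N t) := by
    obtain ⟨z, hz⟩ := IsAlgClosed.exists_root (itp f N - C t) (by
      have h1 := one_le_deg (n := N) hA
      have hpos : 0 < (itp f N).degree := natDegree_pos_iff_degree_pos.1 (by omega)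
      rw [degree_sub_C hpos]
      exact hpos.ne')
    rw [IsRoot.def, eval_sub, eval_C, sub_eq_zero, itp_eval] at hz
    exact ⟨⟨z, hz⟩⟩
  have hreg := regular π htr x₀
  have hfinG : Finite (Subgroup.zpowers π) :=
    Finite.of_injective _ hreg.1
  have hInv : ∀ r : Setoid (Fib f N t), InvL P r → InvS (Subgroup.zpowers π) r := by
    intro r hr
    refine invS_of π r fun x y => ⟨fun h => hr θ hθ _ _ _ _ h (hπ x) (hπ y), fun h => ?_⟩
    exact hr θ.symm (av_symm hθ) _ _ _ _ h (tr_symm (hπ x)) (tr_symm (hπ y))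
  have hL₁ : InvL P (relE f N t E₁) := invL_relE hA h₁
  have hL₂ : InvL P (relE f N t E₂) := invL_relE hA h₂
  have hcard : ∀ A E : ℂ[X], itp f N = A.comp E →
      Nat.card {y // relE f N t E y x₀} = E.natDegree := by
    intro A E h
    have hx₀ : it f N x₀.1 ∉ P := by rw [x₀.2]; exact ht
    rw [← card_fibre' hA h hx₀, ← Nat.card_eq_finsetCard]
    refine Nat.card_congr (Equiv.ofBijective (fun y => ⟨y.1.1, ?_⟩) ⟨?_, ?_⟩)
    · rw [LD.mem_fibre (deg_pos hA h)]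
      exact y.2
    · intro a b hab
      exact Subtype.ext (Subtype.ext (congrArg (fun z => z.1) hab))
    · rintro ⟨y, hy⟩
      rw [LD.mem_fibre (deg_pos hA h)] at hy
      have hyt : it f N y = t := by rw [it_eq h, hy, ← it_eq h, x₀.2]
      exact ⟨⟨⟨y, hyt⟩, hy⟩, rfl⟩
  -- transport to the base point
  have hback : ∀ u v : ℂ, it f N u ∉ P → it f N u = it f N v →
      ∃ (c : ℂ) (γ : Path t c) (a b : Fib f N t), Av P γ ∧ Tr f N γ a.1 u ∧ Tr f N γ b.1 v := by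
    intro u v hu huv
    obtain ⟨γ, hγ, h⟩ := back hA ht hu
    obtain ⟨a, ha⟩ := h u rfl
    obtain ⟨b, hb⟩ := h v huv.symm
    exact ⟨_, γ, ⟨a, (tr_ends ha).1⟩, ⟨b, (tr_ends hb).1⟩, hγ, ha, hb⟩
  have hsame : ∀ A E : ℂ[X], itp f N = A.comp E → ∀ u v, E.eval u = E.eval v →
      it f N u = it f N v := by
    intro A E h u v huv
    rw [it_eq h, it_eq h, huv]
  refine ⟨?_, ?_, ?_⟩
  · -- the gcd
    obtain ⟨G, A, hG, hGdeg, hGr⟩ := factor_exists hPA2 hA ht (invL_inf hL₁ hL₂) x₀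
    rw [card_inf_class _ _ (hInv _ hL₁) (hInv _ hL₂) x₀ hreg, hcard A₁ E₁ h₁,
      hcard A₂ E₂ h₂] at hGdeg
    have key : ∀ u v, it f N u ∉ P → G.eval u = G.eval v →
        E₁.eval u = E₁.eval v ∧ E₂.eval u = E₂.eval v := by
      intro u v hu huv
      obtain ⟨c, γ, a, b, hγ, ha, hb⟩ := hback u v hu (hsame A G hG u v huv)
      have h3 := (hGr u v a b c γ hγ ha hb).1 huv
      exact ⟨tr_factor hA h₁ hγ ha hb h3.1, tr_factor hA h₂ hγ ha hb h3.2⟩
    obtain ⟨U₁, hU₁⟩ := factor_of hPA2 hA hG E₁ fun u v hu huv => (key u v hu huv).1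
    obtain ⟨U₂, hU₂⟩ := factor_of hPA2 hA hG E₂ fun u v hu huv => (key u v hu huv).2
    exact ⟨G, U₁, U₂, hU₁, hU₂, hGdeg⟩
  · -- the lcm
    obtain ⟨L, W, hL, hLdeg, hLr⟩ := factor_exists hPA2 hA ht (invL_sup hA hL₁ hL₂) x₀
    rw [card_sup_class _ _ (hInv _ hL₁) (hInv _ hL₂) x₀ hreg, hcard A₁ E₁ h₁,
      hcard A₂ E₂ h₂] at hLdeg
    obtain ⟨V₁, hV₁⟩ := factor_of hPA2 hA h₁ L fun u v hu huv => by
      obtain ⟨c, γ, a, b, hγ, ha, hb⟩ := hback u v hu (hsame A₁ E₁ h₁ u v huv)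
      have h3 : relE f N t E₁ a b :=
        tr_factor hA h₁ (av_symm hγ) (tr_symm ha) (tr_symm hb) huv
      exact (hLr u v a b c γ hγ ha hb).2 ((le_sup_left : relE f N t E₁ ≤ _) h3)
    obtain ⟨V₂, hV₂⟩ := factor_of hPA2 hA h₂ L fun u v hu huv => by
      obtain ⟨c, γ, a, b, hγ, ha, hb⟩ := hback u v hu (hsame A₂ E₂ h₂ u v huv)
      have h3 : relE f N t E₂ a b :=
        tr_factor hA h₂ (av_symm hγ) (tr_symm ha) (tr_symm hb) huv
      exact (hLr u v a b c γ hγ ha hb).2 ((le_sup_right : relE f N t E₂ ≤ _) h3)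
    exact ⟨L, V₁, V₂, W, hV₁, hV₂, hL, hLdeg⟩
  · -- divisibility
    intro hdvd
    have hle : relE f N t E₁ ≤ relE f N t E₂ :=
      le_of_card_dvd _ _ (hInv _ hL₁) (hInv _ hL₂) x₀ hreg
        (by rw [hcard A₁ E₁ h₁, hcard A₂ E₂ h₂]; exact hdvd)
    refine factor_of hPA2 hA h₁ E₂ fun u v hu huv => ?_
    obtain ⟨c, γ, a, b, hγ, ha, hb⟩ := hback u v hu (hsame A₁ E₁ h₁ u v huv)
    have h3 : relE f N t E₁ a b :=
      tr_factor hA h₁ (av_symm hγ) (tr_symm ha) (tr_symm hb) huv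
    exact tr_factor hA h₂ hγ ha hb (hle h3)

end PCF.RL80

namespace PCF

theorem stmt_RL (hPA2 : Stmt_PA2) (hTR : Stmt_TR) : Stmt_RL := RL80.main hPA2 hTR

end PCF
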