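import Pool.Agent.Work.MP_80ff4e_al_helper80.LC3

/-!
# Block LC: local structure of the lifts of a small loop
-/

set_option autoImplicit false

open Polynomial unitInterval

namespace PCF.H80

lemma small_av {P : Set ℂ} {z : ℂ} {ρ : ℝ} {a : ℂ} {δ : Path a a} (h : Small P z ρ δ) :
    Av P δ := fun s hs => (h.2.1 s).1 (h.1 _ hs (h.2.1 s).2)

section

variable {f : ℂ[X]} {P : Set ℂ} (h : Adm f P) (hTR : Stmt_TR)
include h hTR

lemma lift_av {n : ℕ} {a b : ℂ} {γ : Path a b} {z w : ℂ} {Γ : Path z w} (hγ : Av P γ)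
    (hΓ : ∀ s, it f n (Γ s) = γ s) : Av P Γ :=
  ((hTR f P h).2.2.2.2.2.2.2.2.1 0 n a b γ z w Γ hγ hΓ).1

lemma lift_tr {m n : ℕ} {a b : ℂ} {γ : Path a b} {z w : ℂ} {Γ : Path z w} (hγ : Av P γ)
    (hΓ : ∀ s, it f n (Γ s) = γ s) {x y : ℂ} (hx : it f m x = z) :
    Tr f m Γ x y ↔ Tr f (m + n) γ x y :=
  ((hTR f P h).2.2.2.2.2.2.2.2.1 m n a b γ z w Γ hγ hΓ).2 x y hx

lemma tr_conj_iff {n : ℕ} {a b : ℂ} {δ' : Path b b} {ς : Path a b}
    (hδ' : Av P δ') (hς : Av P ς) {x x' y y' : ℂ} (hx : Tr f n ς x y) (hx' : Tr f n ς x' y') :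
    Tr f n ((ς.trans δ').trans ς.symm) x x' ↔ Tr f n δ' y y' := by
  rw [tr_trans_iff h hTR (trans_av hς hδ') (symm_av hς)]
  constructor
  · rintro ⟨w, h1, h2⟩
    rw [tr_trans_iff h hTR hς hδ'] at h1
    obtain ⟨w', h3, h4⟩ := h1
    rw [tr_symm_iff h hTR] at h2
    rw [tr_unique h hTR hς hx h3, tr_unique h hTR hς hx' h2]
    exact h4
  · intro h1
    exact ⟨y', tr_trans h hTR hx h1, tr_symm h hTR hx'⟩

end

lemma lift_trans {F : ℂ → ℂ} {a b c x y z : ℂ} {γ : Path a b} {δ : Path b c} {Γ : Path x y}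
    {Δ : Path y z} (h1 : ∀ s, F (Γ s) = γ s) (h2 : ∀ s, F (Δ s) = δ s) :
    ∀ s, F ((Γ.trans Δ) s) = (γ.trans δ) s := by
  intro s
  rw [Path.trans_apply, Path.trans_apply]
  split_ifs
  · exact h1 _
  · exact h2 _

lemma lift_symm {F : ℂ → ℂ} {a b x y : ℂ} {γ : Path a b} {Γ : Path x y}
    (h1 : ∀ s, F (Γ s) = γ s) : ∀ s, F (Γ.symm s) = γ.symm s := fun _ => h1 _

/-- The radial segment from `a` towards `z`. -/
noncomputable def radial (z a : ℂ) (c : ℝ) : Path a (z + c * (a - z)) where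
  toFun s := z + (1 - (s : ℝ) * (1 - c) : ℝ) * (a - z)
  continuous_toFun := by fun_prop
  source' := by simp
  target' := by simp

lemma radial_apply (z a : ℂ) (c : ℝ) (s : I) :
    radial z a c s = z + (1 - (s : ℝ) * (1 - c) : ℝ) * (a - z) := rfl

lemma radial_mem {z a : ℂ} {c : ℝ} (hc0 : 0 < c) (hc1 : c ≤ 1) (haz : a ≠ z) (s : I) :
    radial z a c s ≠ z ∧ ‖radial z a c s - z‖ ≤ ‖a - z‖ := by
  have hs0 := s.2.1
  have hs1 := s.2.2
  have h1 : 0 < 1 - (s : ℝ) * (1 - c) := by nlinarith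
  have h2 : 1 - (s : ℝ) * (1 - c) ≤ 1 := by
    have : 0 ≤ (s : ℝ) * (1 - c) := mul_nonneg hs0 (by linarith)
    linarith
  have h3 : radial z a c s - z = (1 - (s : ℝ) * (1 - c) : ℝ) * (a - z) := by
    rw [radial_apply]
    ring
  have haz' : a - z ≠ 0 := sub_ne_zero.2 haz
  constructor
  · rw [← sub_ne_zero, h3]
    exact mul_ne_zero (by exact_mod_cast h1.ne') haz'
  · rw [h3, norm_mul, Complex.norm_real, Real.norm_of_nonneg h1.le]
    exact mul_le_of_le_one_left (norm_nonneg _) h2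

theorem stmt_LC_of (hTR : Stmt_TR) (hSM : Stmt_SM) (hL : Stmt_L) : Stmt_LC := by
  intro f P h n z a ρ δ hδ
  have hF : 1 ≤ (itp f n).natDegree := by
    rw [hL.2.1]
    exact Nat.one_le_pow _ _ (by have := h.deg; omega)
  have hFe : ∀ x, (itp f n).eval x = it f n x := hL.1 f n
  have hlc : 0 < ‖(itp f n).leadingCoeff‖ := by
    rw [norm_pos_iff, Ne, leadingCoeff_eq_zero]
    intro h0
    rw [h0, natDegree_zero] at hF
    omega
  obtain ⟨ε, hε, -, hsep, hPs⟩ := exists_radius (itp f n) hF z P h.fin 1 one_pos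
  simp only [hFe] at hsep hPs
  set r := ‖(itp f n).leadingCoeff‖ * ε ^ (itp f n).natDegree with hr
  have hr0 : 0 < r := by positivity
  obtain ⟨ar, ρr, δr, hδr, hδrav, hρr⟩ := (hSM f P h).1 z r hr0
  obtain ⟨ς, hς, -, hconj⟩ := (hSM f P h).2.1 z a ar ρ ρr δ δr hδ hδr
  have hδav : Av P δ := small_av hδ
  have hδr' : ∀ s, δr s ≠ z ∧ ‖δr s - z‖ < r := fun s =>
    ⟨(hδr.2.1 s).1, (hδr.2.1 s).2.trans_le hρr⟩
  obtain ⟨πr, hπr, huniq, hsurj, hcyc, hdeg, hΓ⟩ := local_struct h hTR hL n z hε hsep hPs δr hδrav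
    hδr' hδr.2.2
  -- transport along `ς`
  have hsgex : ∀ x, ∃ y, it f n x = a → Tr f n ς x y := by
    intro x
    by_cases hx : it f n x = a
    · obtain ⟨y, hy⟩ := tr_exists h hTR hς hx
      exact ⟨y, fun _ => hy⟩
    · exact ⟨0, fun h => absurd h hx⟩
  choose sg hsg using hsgex
  have hsg' : ∀ x, it f n x = a → it f n (sg x) = ar := fun x hx => (tr_ends h hTR (hsg x hx)).2
  have hpow : ∀ j x x', it f n x = a → it f n x' = a →
      (Tr f n (pw δ j) x x' ↔ Tr f n (pw δr j) (sg x) (sg x')) := by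
    intro j x x' hx hx'
    rw [tr_pw_conj h hTR hδav hδrav hς (hconj n), tr_conj_iff h hTR (pw_av hδrav j) hς (hsg x hx)
      (hsg x' hx')]
  have hdeg' : ∀ x j, it f n x = a →
      (Tr f n (pw δ j) x x ↔ ldeg (itp f n) (πr (sg x)) ∣ j) := by
    intro x j hx
    rw [hpow j x x hx hx]
    exact hdeg _ j (hsg' x hx)
  refine ⟨fun x => πr (sg x), ?_, ?_, ?_, hdeg', ?_, ?_⟩
  · intro x hx
    exact (hπr _ (hsg' x hx)).1
  · intro u hu
    obtain ⟨y, hy, hyu⟩ := hsurj u hu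
    obtain ⟨x, hx⟩ := tr_exists h hTR (symm_av hς) hy
    rw [tr_symm_iff h hTR] at hx
    have hxa := (tr_ends h hTR hx).1
    refine ⟨x, hxa, ?_⟩
    show πr (sg x) = u
    rw [tr_unique h hTR hς (hsg x hxa) hx, hyu]
  · intro x x' hx hx'
    rw [hcyc _ _ (hsg' x hx) (hsg' x' hx')]
    simp only [hpow _ x x' hx hx']
  · intro x hx
    obtain ⟨Γ, hΓ1⟩ := (hdeg' x _ hx).2 dvd_rfl
    obtain ⟨Γr, hΓr, hsmall⟩ := hΓ (sg x) (hsg' x hx)
    obtain ⟨η, hη⟩ := hsg x hx
    refine ⟨Γ, hΓ1, sg x, η, ε, Γr, lift_av h hTR hς hη, hsmall, ?_⟩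
    intro m y y'
    by_cases hy : it f m y = x
    · rw [lift_tr h hTR (pw_av hδav _) hΓ1 hy,
        lift_tr h hTR (trans_av (trans_av hς (pw_av hδrav _)) (symm_av hς))
          (lift_trans (lift_trans hη hΓr) (lift_symm hη)) hy]
      exact tr_pw_conj h hTR hδav hδrav hς (hconj (m + n)) _ y y'
    · constructor
      · intro h1
        exact absurd (tr_ends h hTR h1).1 hy
      · intro h1
        exact absurd (tr_ends h hTR h1).1 hy
  · intro ε' hε'
    set e := min ε ε' with he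
    have he0 : 0 < e := lt_min hε hε'
    have har : ar ≠ z ∧ ‖ar - z‖ < ρr := by
      have := hδr.2.1 0
      rwa [δr.source] at this
    have hd0 : 0 < ‖ar - z‖ := norm_pos_iff.2 (sub_ne_zero.2 har.1)
    set R := min ε' (‖(itp f n).leadingCoeff‖ * e ^ (itp f n).natDegree) with hR
    have hR0 : 0 < R := lt_min hε' (by positivity)
    set c := min 1 (R / (2 * ‖ar - z‖)) with hc
    have hc0 : 0 < c := lt_min one_pos (by positivity)
    have hc1 : c ≤ 1 := min_le_left _ _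
    have hcR : c * ‖ar - z‖ < R := by
      have h1 : c ≤ R / (2 * ‖ar - z‖) := min_le_right _ _
      have h2 : c * ‖ar - z‖ ≤ R / (2 * ‖ar - z‖) * ‖ar - z‖ :=
        mul_le_mul_of_nonneg_right h1 hd0.le
      have h3 : R / (2 * ‖ar - z‖) * ‖ar - z‖ = R / 2 := by field_simp
      linarith
    have hend : ‖(z + c * (ar - z)) - z‖ < R := by
      have : (z + c * (ar - z)) - z = (c : ℂ) * (ar - z) := by ring
      rw [this, norm_mul, Complex.norm_real, Real.norm_of_nonneg hc0.le]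
      exact hcR
    have hrad := radial_mem (z := z) (a := ar) hc0 hc1 har.1
    have hradav : Av P (radial z ar c) := by
      intro s hs
      exact (hrad s).1 (hδr.1 _ hs ((hrad s).2.trans_lt har.2))
    refine ⟨z + c * (ar - z), ς.trans (radial z ar c), hend.trans_le (min_le_left _ _), ?_,
      trans_av hς hradav, ?_⟩
    · have := (hrad 1).1
      rwa [(radial z ar c).target] at this
    · intro x hx
      obtain ⟨y, hy⟩ := tr_exists h hTR hradav (hsg' x hx)
      refine ⟨y, tr_trans h hTR (hsg x hx) hy, ?_⟩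
      obtain ⟨Γ, hΓ1⟩ := hy
      have hz := (hπr _ (hsg' x hx)).1
      have hyend : it f n y = z + c * (ar - z) := by
        have := hΓ1 1
        rwa [Γ.target, (radial z ar c).target] at this
      have h1 := stay (itp f n) hF z hε (by simpa only [hFe] using hsep) Γ.toContinuousMap (by
        intro s
        show ‖(itp f n).eval (Γ s) - z‖ < r
        rw [hFe, hΓ1]
        exact (hrad s).2.trans_lt (har.2.trans_le hρr)) (πr (sg x)) (by rw [hFe]; exact hz) (by
        show ‖Γ 0 - πr (sg x)‖ < ε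
        rw [Γ.source]
        exact (hπr _ (hsg' x hx)).2) 1
      have h2 : ‖y - πr (sg x)‖ < ε := by
        have h3 : Γ.toContinuousMap 1 = y := Γ.target
        rwa [h3] at h1
      obtain ⟨u', hu', hd'⟩ := exists_root_near (itp f n) hF z he0 y (by
        rw [hFe, hyend]
        exact hend.trans_le (min_le_right _ _))
      rw [hFe] at hu'
      have h4 : u' = πr (sg x) := by
        by_contra hne
        have h5 := hsep u' _ hu' hz hne
        have h6 : ‖u' - πr (sg x)‖ ≤ ‖y - u'‖ + ‖y - πr (sg x)‖ := by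
          have : u' - πr (sg x) = -(y - u') + (y - πr (sg x)) := by ring
          rw [this]
          exact (norm_add_le _ _).trans (by rw [norm_neg])
        have h7 : e ≤ ε := min_le_left _ _
        linarith
      show ‖y - πr (sg x)‖ < ε'
      rw [← h4]
      exact hd'.trans_le (min_le_right _ _)

end PCF.H80
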