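import Pool.Agent.Work.MP_80ff4e_al.Interface3
import Pool.Agent.Work.MP_80ff4e_al_helper39.W

/-!
# Block LC, part 1: polynomials near the points of a fibre
-/

set_option autoImplicit false

open Polynomial unitInterval

namespace PCF.H80

lemma pow_card_le_norm_prod {x : ℂ} {ε : ℝ} (hε : 0 < ε) (s : Multiset ℂ)
    (h : ∀ u ∈ s, ε ≤ ‖x - u‖) : ε ^ (Multiset.card s) ≤ ‖(s.map fun u => x - u).prod‖ := by
  induction s using Multiset.induction_on with
  | empty => simp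
  | cons u s ih =>
    rw [Multiset.card_cons, Multiset.map_cons, Multiset.prod_cons, norm_mul, pow_succ']
    exact mul_le_mul (h u (Multiset.mem_cons_self _ _))
      (ih fun v hv => h v (Multiset.mem_cons_of_mem hv)) (by positivity) (norm_nonneg _)

lemma sub_C_facts (F : ℂ[X]) (hF : 1 ≤ F.natDegree) (b : ℂ) :
    F - C b ≠ 0 ∧ (F - C b).leadingCoeff = F.leadingCoeff ∧ (F - C b).natDegree = F.natDegree := by
  have h1 : (C b : ℂ[X]).degree < F.degree := by
    apply lt_of_le_of_lt degree_C_le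
    rw [← natDegree_pos_iff_degree_pos]
    exact hF
  have h2 : (F - C b).natDegree = F.natDegree := natDegree_sub_C
  refine ⟨?_, leadingCoeff_sub_of_degree_lt h1, h2⟩
  intro h0
  rw [h0, natDegree_zero] at h2
  omega

lemma eval_sub_eq (F : ℂ[X]) (hF : 1 ≤ F.natDegree) (b x : ℂ) :
    F.eval x - b = F.leadingCoeff * ((F - C b).roots.map fun u => x - u).prod := by
  obtain ⟨-, h2, -⟩ := sub_C_facts F hF b
  have h := (IsAlgClosed.splits (F - C b)).eq_prod_roots
  have h3 : (F - C b).eval x = F.eval x - b := by simp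
  rw [← h3]
  conv_lhs => rw [h]
  rw [eval_mul, eval_C, h2, eval_multiset_prod, Multiset.map_map]
  simp

/-- A point at which the value is close to `b` is close to a root of `F - b`. -/
lemma exists_root_near (F : ℂ[X]) (hF : 1 ≤ F.natDegree) (b : ℂ) {ε : ℝ} (hε : 0 < ε) (x : ℂ)
    (hx : ‖F.eval x - b‖ < ‖F.leadingCoeff‖ * ε ^ F.natDegree) :
    ∃ u, F.eval u = b ∧ ‖x - u‖ < ε := by
  by_contra hcon
  push Not at hcon
  obtain ⟨h1, h2, h3⟩ := sub_C_facts F hF b
  have hcard : Multiset.card (F - C b).roots = F.natDegree := by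
    rw [← h3]
    exact (splits_iff_card_roots.1 (IsAlgClosed.splits (F - C b)))
  have h4 := pow_card_le_norm_prod (x := x) hε (F - C b).roots (by
    intro u hu
    apply hcon
    rw [mem_roots h1, IsRoot.def, eval_sub, eval_C, sub_eq_zero] at hu
    exact hu)
  rw [hcard] at h4
  rw [eval_sub_eq F hF, norm_mul] at hx
  exact absurd hx (not_lt.2 (mul_le_mul_of_nonneg_left h4 (norm_nonneg _)))

lemma wind_congr {u v : C(I, ℂ)} {k : ℤ} (h : ∀ s, u s = v s) (hu : Wind u k) : Wind v k := by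
  have : u = v := ContinuousMap.ext h
  rwa [← this]

/-- Winding number of a product of linear factors. -/
lemma wind_prod (Γ : C(I, ℂ)) (hloop : Γ 0 = Γ 1) (u : ℂ) (ε : ℝ) (hΓ : ∀ s, ‖Γ s - u‖ < ε)
    (k : ℤ) (hk : Wind (Γ - ContinuousMap.const I u) k) (S : Multiset ℂ)
    (hS : ∀ r ∈ S, r ≠ u → ε ≤ ‖u - r‖) :
    ∃ g : C(I, ℂ), (∀ s, g s = (S.map fun r => Γ s - r).prod) ∧ Wind g (S.count u * k) := by
  classical
  obtain ⟨-, -, hmul, hconst, -, hclose, -⟩ := stmt_W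
  induction S using Multiset.induction_on with
  | empty =>
    refine ⟨ContinuousMap.const I 1, by simp, ?_⟩
    simpa using hconst 1 one_ne_zero
  | cons r S ih =>
    obtain ⟨g, hg, hw⟩ := ih fun v hv => hS v (Multiset.mem_cons_of_mem hv)
    refine ⟨(Γ - ContinuousMap.const I r) * g, fun s => by simp [hg], ?_⟩
    by_cases hr : r = u
    · subst hr
      rw [Multiset.count_cons_self]
      have := hmul _ _ _ _ hk hw
      convert this using 1
      push_cast
      ring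
    · rw [Multiset.count_cons_of_ne (Ne.symm hr)]
      have h0 : Wind (Γ - ContinuousMap.const I r) 0 := by
        apply hclose _ (u - r)
        · simp [hloop]
        · intro s
          have e : (Γ - ContinuousMap.const I r) s - (u - r) = Γ s - u := by
            simp
          rw [e]
          exact lt_of_lt_of_le (hΓ s) (hS r (Multiset.mem_cons_self _ _) hr)
      have := hmul _ _ _ _ h0 hw
      rwa [zero_add] at this

lemma wind_poly (F : ℂ[X]) (hF : 1 ≤ F.natDegree) (Γ : C(I, ℂ)) (hloop : Γ 0 = Γ 1) (u : ℂ)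
    (ε : ℝ) (hΓ : ∀ s, ‖Γ s - u‖ < ε)
    (hS : ∀ r, F.eval r = F.eval u → r ≠ u → ε ≤ ‖u - r‖) (k : ℤ)
    (hk : Wind (Γ - ContinuousMap.const I u) k) (g : C(I, ℂ))
    (hg : ∀ s, g s = F.eval (Γ s) - F.eval u) : Wind g (ldeg F u * k) := by
  classical
  obtain ⟨-, -, hmul, hconst, -, hclose, -⟩ := stmt_W
  obtain ⟨h1, h2, h3⟩ := sub_C_facts F hF (F.eval u)
  obtain ⟨g', hg', hw⟩ := wind_prod Γ hloop u ε hΓ k hk (F - C (F.eval u)).roots (by
    intro r hr hru
    apply hS r _ hru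
    rw [mem_roots h1, IsRoot.def, eval_sub, eval_C, sub_eq_zero] at hr
    exact hr)
  have hlc : F.leadingCoeff ≠ 0 := by
    rw [← h2]
    exact leadingCoeff_ne_zero.2 h1
  have := hmul _ _ _ _ (hconst _ hlc) hw
  rw [zero_add, count_roots] at this
  refine wind_congr ?_ this
  intro s
  rw [hg, eval_sub_eq F hF]
  simp [hg']

/-- Lifts of paths in a small disc stay in one component. -/
lemma stay (F : ℂ[X]) (hF : 1 ≤ F.natDegree) (z : ℂ) {ε : ℝ} (hε : 0 < ε)
    (hsep : ∀ u u', F.eval u = z → F.eval u' = z → u ≠ u' → 2 * ε ≤ ‖u - u'‖)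
    (Γ : C(I, ℂ)) (hΓ : ∀ s, ‖F.eval (Γ s) - z‖ < ‖F.leadingCoeff‖ * ε ^ F.natDegree)
    (u : ℂ) (hu : F.eval u = z) (h0 : ‖Γ 0 - u‖ < ε) : ∀ s, ‖Γ s - u‖ < ε := by
  have h1 : IsPreconnected (Set.range Γ) := isPreconnected_range Γ.continuous
  have h5 : (Set.range Γ ∩ Metric.ball u ε).Nonempty :=
    ⟨Γ 0, ⟨0, rfl⟩, by rw [Metric.mem_ball, dist_eq_norm]; exact h0⟩
  have h2 := h1.subset_left_of_subset_union (u := Metric.ball u ε)
    (v := ⋃ u' ∈ {u' | F.eval u' = z ∧ u' ≠ u}, Metric.ball u' ε) Metric.isOpen_ball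
    (isOpen_biUnion fun _ _ => Metric.isOpen_ball) (by
      rw [Set.disjoint_left]
      intro x hx hx'
      obtain ⟨u', ⟨hu', hne⟩, hxu'⟩ := Set.mem_iUnion₂.1 hx'
      rw [Metric.mem_ball, dist_eq_norm] at hx hxu'
      have h3 := hsep u u' hu hu' (Ne.symm hne)
      have h4 : ‖u - u'‖ ≤ ‖x - u‖ + ‖x - u'‖ := by
        have : u - u' = -(x - u) + (x - u') := by ring
        rw [this]
        exact (norm_add_le _ _).trans (by rw [norm_neg])
      linarith) (by
      rintro _ ⟨s, rfl⟩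
      obtain ⟨u', hu', hd⟩ := exists_root_near F hF z hε (Γ s) (hΓ s)
      by_cases he : u' = u
      · left
        rw [Metric.mem_ball, dist_eq_norm, ← he]
        exact hd
      · right
        refine Set.mem_iUnion₂.2 ⟨u', ⟨hu', he⟩, ?_⟩
        rw [Metric.mem_ball, dist_eq_norm]
        exact hd) h5
  intro s
  have := h2 ⟨s, rfl⟩
  rwa [Metric.mem_ball, dist_eq_norm] at this

/-- A good radius. -/
lemma exists_radius (F : ℂ[X]) (hF : 1 ≤ F.natDegree) (z : ℂ) (P : Set ℂ) (hP : P.Finite)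
    (ε₁ : ℝ) (hε₁ : 0 < ε₁) :
    ∃ ε : ℝ, 0 < ε ∧ ε ≤ ε₁ ∧ (∀ u u', F.eval u = z → F.eval u' = z → u ≠ u' → 2 * ε ≤ ‖u - u'‖) ∧
      ∀ u, F.eval u = z → ∀ p ∈ P, ‖p - u‖ < ε → p = u := by
  classical
  obtain ⟨h1, h2, h3⟩ := sub_C_facts F hF z
  have hR : {u | F.eval u = z}.Finite := by
    refine ((F - C z).roots.toFinset.finite_toSet).subset ?_
    intro u hu
    rw [Finset.mem_coe, Multiset.mem_toFinset, mem_roots h1, IsRoot.def, eval_sub, eval_C,
      sub_eq_zero]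
    exact hu
  set T : Set ℂ := {u | F.eval u = z} ∪ P with hT
  have hTf : T.Finite := hR.union hP
  have hD : ((fun q : ℂ × ℂ => ‖q.1 - q.2‖) '' ((T ×ˢ T) ∩ {q | q.1 ≠ q.2})).Finite :=
    ((hTf.prod hTf).inter_of_left _).image _
  obtain ⟨ε, hε, hε'⟩ : ∃ ε : ℝ, 0 < ε ∧ ∀ d ∈ ((fun q : ℂ × ℂ => ‖q.1 - q.2‖) ''
      ((T ×ˢ T) ∩ {q | q.1 ≠ q.2})), 2 * ε ≤ d := by
    rcases ((fun q : ℂ × ℂ => ‖q.1 - q.2‖) '' ((T ×ˢ T) ∩ {q | q.1 ≠ q.2})).eq_empty_or_nonempty
      with he | hne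
    · exact ⟨1, one_pos, fun d hd => by rw [he] at hd; exact absurd hd (Set.notMem_empty _)⟩
    · obtain ⟨d0, hd0, hmin⟩ := hD.exists_minimal hne
      have hmin' : ∀ d ∈ ((fun q : ℂ × ℂ => ‖q.1 - q.2‖) '' ((T ×ˢ T) ∩ {q | q.1 ≠ q.2})),
          d0 ≤ d := by
        intro d hd
        by_contra hlt
        push Not at hlt
        exact absurd (hmin hd hlt.le) (not_le.2 hlt)
      obtain ⟨q, ⟨-, hq⟩, rfl⟩ := hd0
      refine ⟨‖q.1 - q.2‖ / 2, ?_, fun d hd => ?_⟩
      · have : 0 < ‖q.1 - q.2‖ := norm_pos_iff.2 (sub_ne_zero.2 hq)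
        linarith
      · have := hmin' d hd
        simp only at this
        linarith
  have hkey : ∀ u ∈ T, ∀ v ∈ T, u ≠ v → 2 * ε ≤ ‖u - v‖ := by
    intro u hu v hv huv
    exact hε' _ ⟨(u, v), ⟨⟨hu, hv⟩, huv⟩, rfl⟩
  refine ⟨min ε ε₁, lt_min hε hε₁, min_le_right _ _, ?_, ?_⟩
  · intro u u' hu hu' hne
    have := hkey u (Or.inl hu) u' (Or.inl hu') hne
    have h4 := min_le_left ε ε₁
    linarith
  · intro u hu p hp hd
    by_contra hne
    have := hkey p (Or.inr hp) u (Or.inl hu) hne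
    have h4 := min_le_left ε ε₁
    linarith

end PCF.H80
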