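import Pool.Agent.Work.MP_80ff4e_al_helper80.LC1

/-!
# Block LC, part 2: transport along loops, powers of loops
-/

set_option autoImplicit false

open Polynomial unitInterval

namespace PCF.H80

section trans

variable {a b c : ℂ}

lemma trans_mem {C : Set ℂ} {γ : Path a b} {δ : Path b c} (h1 : ∀ s, γ s ∈ C)
    (h2 : ∀ s, δ s ∈ C) : ∀ s, (γ.trans δ) s ∈ C := by
  intro s
  rw [Path.trans_apply]
  split_ifs
  · exact h1 _
  · exact h2 _

lemma pw_mem {C : Set ℂ} {γ : Path a a} (h : ∀ s, γ s ∈ C) (j : ℕ) : ∀ s, pw γ j s ∈ C := by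
  induction j with
  | zero =>
    intro s
    have := h 0
    rw [γ.source] at this
    exact this
  | succ j ih => exact trans_mem ih h

lemma pw_av {P : Set ℂ} {γ : Path a a} (h : Av P γ) (j : ℕ) : Av P (pw γ j) :=
  pw_mem (C := Pᶜ) h j

lemma trans_av {P : Set ℂ} {γ : Path a b} {δ : Path b c} (h1 : Av P γ) (h2 : Av P δ) :
    Av P (γ.trans δ) := trans_mem (C := Pᶜ) h1 h2

lemma symm_av {P : Set ℂ} {γ : Path a b} (h1 : Av P γ) : Av P γ.symm := fun s => h1 _

lemma wind_pw (z : ℂ) (γ : Path a a) (h : Wind (γ.toContinuousMap - ContinuousMap.const I z) 1)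
    (hz : a ≠ z) (j : ℕ) : Wind ((pw γ j).toContinuousMap - ContinuousMap.const I z) j := by
  obtain ⟨-, -, -, hconst, -, -, -, hcat, -⟩ := stmt_W
  have hc : Continuous fun w : ℂ => w - z := by fun_prop
  induction j with
  | zero =>
    refine wind_congr ?_ (hconst (a - z) (sub_ne_zero.2 hz))
    intro s
    rfl
  | succ j ih =>
    have h1 : Wind ((pw γ j).map hc).toContinuousMap j := wind_congr (fun s => rfl) ih
    have h2 : Wind (γ.map hc).toContinuousMap 1 := wind_congr (fun s => rfl) h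
    have h3 := hcat _ _ _ _ _ h1 h2
    rw [← Path.map_trans] at h3
    rw [Nat.cast_succ]
    exact wind_congr (fun _ => rfl) h3

end trans

section tr

variable {f : ℂ[X]} {P : Set ℂ} (h : Adm f P) (hTR : Stmt_TR)
include h hTR

lemma tr_exists {n : ℕ} {a b : ℂ} {γ : Path a b} (hγ : Av P γ) {z : ℂ} (hz : it f n z = a) :
    ∃ w, Tr f n γ z w := (hTR f P h).1 n a b γ hγ z hz

lemma tr_unique {n : ℕ} {a b : ℂ} {γ : Path a b} (hγ : Av P γ) {z w w' : ℂ}
    (h1 : Tr f n γ z w) (h2 : Tr f n γ z w') : w = w' := (hTR f P h).2.1 n a b γ hγ z w w' h1 h2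

lemma tr_ends {n : ℕ} {a b : ℂ} {γ : Path a b} {z w : ℂ}
    (h1 : Tr f n γ z w) : it f n z = a ∧ it f n w = b := (hTR f P h).2.2.1 n a b γ z w h1

lemma tr_refl {n : ℕ} {a z : ℂ} (hz : it f n z = a) : Tr f n (Path.refl a) z z :=
  (hTR f P h).2.2.2.1 n a z hz

lemma tr_symm {n : ℕ} {a b : ℂ} {γ : Path a b} {z w : ℂ}
    (h1 : Tr f n γ z w) : Tr f n γ.symm w z := (hTR f P h).2.2.2.2.1 n a b γ z w h1

lemma tr_trans {n : ℕ} {a b c : ℂ} {γ : Path a b} {δ : Path b c} {x y z : ℂ}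
    (h1 : Tr f n γ x y) (h2 : Tr f n δ y z) : Tr f n (γ.trans δ) x z :=
  (hTR f P h).2.2.2.2.2.1 n a b c γ δ x y z h1 h2

lemma tr_symm_iff {n : ℕ} {a b : ℂ} {γ : Path a b} {z w : ℂ} :
    Tr f n γ.symm w z ↔ Tr f n γ z w := by
  constructor
  · intro h1
    have := tr_symm h hTR h1
    rwa [Path.symm_symm] at this
  · exact tr_symm h hTR

lemma tr_trans_iff {n : ℕ} {a b c : ℂ} {γ : Path a b} {δ : Path b c} (hγ : Av P γ)
    (hδ : Av P δ) {x z : ℂ} :
    Tr f n (γ.trans δ) x z ↔ ∃ y, Tr f n γ x y ∧ Tr f n δ y z := by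
  constructor
  · intro h1
    obtain ⟨y, hy⟩ := tr_exists h hTR hγ (tr_ends h hTR h1).1
    obtain ⟨z', hz'⟩ := tr_exists h hTR hδ (tr_ends h hTR hy).2
    refine ⟨y, hy, ?_⟩
    rwa [tr_unique h hTR (trans_av hγ hδ) h1 (tr_trans h hTR hy hz')]
  · rintro ⟨y, h1, h2⟩
    exact tr_trans h hTR h1 h2

lemma tr_refl_iff {n : ℕ} {a x y : ℂ} (ha : a ∉ P) :
    Tr f n (Path.refl a) x y ↔ x = y ∧ it f n x = a := by
  constructor
  · intro h1
    have h2 := (tr_ends h hTR h1).1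
    exact ⟨tr_unique h hTR (fun _ => ha) (tr_refl h hTR h2) h1, h2⟩
  · rintro ⟨rfl, h1⟩
    exact tr_refl h hTR h1

omit h hTR in
lemma av_base {a b : ℂ} {γ : Path a b} (hγ : Av P γ) : a ∉ P := by
  have := hγ 0
  rwa [γ.source] at this

/-- The transport along a loop, as a function. -/
lemma exists_transport (n : ℕ) {a : ℂ} {γ : Path a a} (hγ : Av P γ) :
    ∃ T : {x // it f n x = a} → {x // it f n x = a}, Function.Injective T ∧
      ∀ (j : ℕ) (x : {x // it f n x = a}) (y : ℂ), Tr f n (pw γ j) x y ↔ y = (T^[j] x : _).1 := by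
  choose T hT using fun x : {x // it f n x = a} => tr_exists h hTR hγ x.2
  let T' : {x // it f n x = a} → {x // it f n x = a} := fun x => ⟨T x, (tr_ends h hTR (hT x)).2⟩
  refine ⟨T', ?_, ?_⟩
  · intro x y hxy
    have h1 : T x = T y := congrArg Subtype.val hxy
    have h2 := tr_symm h hTR (hT x)
    have h3 := tr_symm h hTR (hT y)
    rw [← h1] at h3
    exact Subtype.ext (tr_unique h hTR (symm_av hγ) h2 h3)
  · intro j
    induction j with
    | zero =>
      intro x y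
      show Tr f n (Path.refl a) x y ↔ y = x.1
      rw [tr_refl_iff h hTR (av_base hγ)]
      exact ⟨fun h1 => h1.1.symm, fun h1 => ⟨h1.symm, x.2⟩⟩
    | succ j ih =>
      intro x y
      show Tr f n ((pw γ j).trans γ) x y ↔ _
      rw [tr_trans_iff h hTR (pw_av hγ j) hγ, Function.iterate_succ_apply']
      constructor
      · rintro ⟨w, h1, h2⟩
        rw [ih] at h1
        subst h1
        exact tr_unique h hTR hγ h2 (hT _)
      · rintro rfl
        exact ⟨_, (ih x _).2 rfl, hT _⟩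

/-- If `δ` acts as `ς δ' ς⁻¹`, then so do the powers. -/
lemma tr_pw_conj {n : ℕ} {a b : ℂ} {δ : Path a a} {δ' : Path b b} {ς : Path a b} (hδ : Av P δ)
    (hδ' : Av P δ') (hς : Av P ς)
    (hc : ∀ x y, Tr f n δ x y ↔ Tr f n ((ς.trans δ').trans ς.symm) x y) (j : ℕ) (x y : ℂ) :
    Tr f n (pw δ j) x y ↔ Tr f n ((ς.trans (pw δ' j)).trans ς.symm) x y := by
  induction j generalizing x y with
  | zero =>
    show Tr f n (Path.refl a) x y ↔ Tr f n ((ς.trans (Path.refl b)).trans ς.symm) x y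
    have hrefl : Av P (Path.refl b) := fun _ => av_base hδ'
    rw [tr_refl_iff h hTR (av_base hδ), tr_trans_iff h hTR
      (trans_av hς hrefl) (symm_av hς)]
    constructor
    · rintro ⟨rfl, h1⟩
      obtain ⟨w, hw⟩ := tr_exists h hTR hς h1
      exact ⟨w, tr_trans h hTR hw (tr_refl h hTR (tr_ends h hTR hw).2), tr_symm h hTR hw⟩
    · rintro ⟨w, h1, h2⟩
      rw [tr_trans_iff h hTR hς hrefl] at h1
      obtain ⟨w', h3, h4⟩ := h1
      rw [tr_refl_iff h hTR (av_base hδ')] at h4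
      obtain ⟨rfl, -⟩ := h4
      exact ⟨tr_unique h hTR (symm_av hς) (tr_symm h hTR h3) h2, (tr_ends h hTR h3).1⟩
  | succ j ih =>
    show Tr f n ((pw δ j).trans δ) x y ↔ Tr f n ((ς.trans ((pw δ' j).trans δ')).trans ς.symm) x y
    rw [tr_trans_iff h hTR (pw_av hδ j) hδ, tr_trans_iff h hTR
      (trans_av hς (trans_av (pw_av hδ' j) hδ')) (symm_av hς)]
    simp only [ih, hc]
    simp only [tr_trans_iff h hTR (trans_av hς (pw_av hδ' j)) (symm_av hς),
      tr_trans_iff h hTR (trans_av hς hδ') (symm_av hς), tr_trans_iff h hTR hς (pw_av hδ' j),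
      tr_trans_iff h hTR hς hδ', tr_trans_iff h hTR hς (trans_av (pw_av hδ' j) hδ'),
      tr_trans_iff h hTR (pw_av hδ' j) hδ', tr_symm_iff h hTR]
    constructor
    · rintro ⟨w, ⟨w1, ⟨w2, h1, h2⟩, h3⟩, ⟨w4, ⟨w5, h4, h5⟩, h6⟩⟩
      have e := tr_unique h hTR hς h3 h4
      subst e
      exact ⟨w4, ⟨w2, h1, w1, h2, h5⟩, h6⟩
    · rintro ⟨w, ⟨w2, h1, w1, h2, h5⟩, h6⟩
      obtain ⟨w3, h7⟩ := tr_exists h hTR (symm_av hς) (tr_ends h hTR h5).1
      rw [tr_symm_iff h hTR] at h7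
      exact ⟨w3, ⟨w1, ⟨w2, h1, h2⟩, h7⟩, w, ⟨w1, h7, h5⟩, h6⟩

end tr

end PCF.H80
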