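import Pool.Agent.Work.MP_80ff4e_al_helper80.LC2

/-!
# Block LC, part 3: local structure over a small disc
-/

set_option autoImplicit false

open Polynomial unitInterval

namespace PCF.H80

/-- Local structure of the lifts of a loop in a very small disc. -/
lemma local_struct {f : ℂ[X]} {P : Set ℂ} (h : Adm f P) (hTR : Stmt_TR) (hL : Stmt_L) (n : ℕ)
    (z : ℂ) {ε : ℝ} (hε : 0 < ε)
    (hsep : ∀ u u', it f n u = z → it f n u' = z → u ≠ u' → 2 * ε ≤ ‖u - u'‖)
    (hP : ∀ u, it f n u = z → ∀ p ∈ P, ‖p - u‖ < ε → p = u)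
    {a : ℂ} (δ : Path a a) (hav : Av P δ)
    (hδ : ∀ s, δ s ≠ z ∧ ‖δ s - z‖ < ‖(itp f n).leadingCoeff‖ * ε ^ (itp f n).natDegree)
    (hw : Wind (δ.toContinuousMap - ContinuousMap.const I z) 1) :
    ∃ π : ℂ → ℂ,
      (∀ x, it f n x = a → it f n (π x) = z ∧ ‖x - π x‖ < ε) ∧
      (∀ x u, it f n x = a → it f n u = z → ‖x - u‖ < ε → u = π x) ∧
      (∀ u, it f n u = z → ∃ x, it f n x = a ∧ π x = u) ∧
      (∀ x x', it f n x = a → it f n x' = a → (π x = π x' ↔ ∃ j, Tr f n (pw δ j) x x')) ∧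
      (∀ x j, it f n x = a → (Tr f n (pw δ j) x x ↔ ldeg (itp f n) (π x) ∣ j)) ∧
      (∀ x, it f n x = a → ∃ Γ : Path x x,
        (∀ s, it f n (Γ s) = pw δ (ldeg (itp f n) (π x)) s) ∧ Small P (π x) ε Γ) := by
  classical
  obtain ⟨hL1, hL2, -, hL4, hL5, hL6, -, -, -⟩ := hL
  set F := itp f n with hFdef
  have hF : 1 ≤ F.natDegree := by
    rw [hFdef, hL2]
    exact Nat.one_le_pow _ _ (by have := h.deg; omega)
  have hFe : ∀ x, F.eval x = it f n x := hL1 f n
  set r := ‖F.leadingCoeff‖ * ε ^ F.natDegree with hr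
  have ha : a ≠ z ∧ ‖a - z‖ < r := by
    have := hδ 0
    rwa [δ.source] at this
  have haP : a ∉ P := av_base hav
  have hsep' : ∀ u u', F.eval u = z → F.eval u' = z → u ≠ u' → 2 * ε ≤ ‖u - u'‖ := by
    intro u u' hu hu'
    rw [hFe] at hu hu'
    exact hsep u u' hu hu'
  -- the map `π`
  have hex : ∀ x, ∃ u, it f n x = a → it f n u = z ∧ ‖x - u‖ < ε := by
    intro x
    by_cases hx : it f n x = a
    · obtain ⟨u, hu, hd⟩ := exists_root_near F hF z hε x (by rw [hFe, hx]; exact ha.2)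
      exact ⟨u, fun _ => ⟨by rw [← hFe]; exact hu, hd⟩⟩
    · exact ⟨0, fun h => absurd h hx⟩
  choose π hπ using hex
  have huniq : ∀ x u, it f n x = a → it f n u = z → ‖x - u‖ < ε → u = π x := by
    intro x u hx hu hd
    by_contra hne
    have h1 := hsep u (π x) hu (hπ x hx).1 hne
    have h2 := (hπ x hx).2
    have h3 : ‖u - π x‖ ≤ ‖x - u‖ + ‖x - π x‖ := by
      have : u - π x = -(x - u) + (x - π x) := by ring
      rw [this]
      exact (norm_add_le _ _).trans (by rw [norm_neg])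
    linarith
  -- powers of the loop
  have hpw : ∀ j s, pw δ j s ≠ z ∧ ‖pw δ j s - z‖ < r :=
    fun j => pw_mem (C := {w | w ≠ z ∧ ‖w - z‖ < r}) hδ j
  have hstay : ∀ j x y (Γ : Path x y), (∀ s, it f n (Γ s) = pw δ j s) →
      ∀ s, ‖Γ s - π x‖ < ε := by
    intro j x y Γ hΓ
    have hx : it f n x = a := by
      have := hΓ 0
      rwa [Γ.source, (pw δ j).source] at this
    apply stay F hF z hε hsep' Γ.toContinuousMap _ (π x) (by rw [hFe]; exact (hπ x hx).1)
    · show ‖Γ 0 - π x‖ < ε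
      rw [Γ.source]
      exact (hπ x hx).2
    · intro s
      show ‖F.eval (Γ s) - z‖ < r
      rw [hFe, hΓ]
      exact (hpw j s).2
  have hend : ∀ j x y, Tr f n (pw δ j) x y → π y = π x := by
    rintro j x y ⟨Γ, hΓ⟩
    have hx : it f n x = a := by
      have := hΓ 0
      rwa [Γ.source, (pw δ j).source] at this
    have hy : it f n y = a := by
      have := hΓ 1
      rwa [Γ.target, (pw δ j).target] at this
    have := hstay j x y Γ hΓ 1
    rw [Γ.target] at this
    exact (huniq y (π x) hy (hπ x hx).1 this).symm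
  obtain ⟨hWex, hWun, -⟩ := stmt_W
  have hwind : ∀ j x (Γ : Path x x), (∀ s, it f n (Γ s) = pw δ j s) →
      ∃ k : ℤ, Wind (Γ.toContinuousMap - ContinuousMap.const I (π x)) k ∧
        (j : ℤ) = ldeg F (π x) * k := by
    intro j x Γ hΓ
    have hx : it f n x = a := by
      have := hΓ 0
      rwa [Γ.source, (pw δ j).source] at this
    have hz := (hπ x hx).1
    obtain ⟨k, hk⟩ := hWex (Γ.toContinuousMap - ContinuousMap.const I (π x)) (by
      intro s hs
      have h1 : Γ s = π x := sub_eq_zero.1 hs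
      have h2 := hΓ s
      rw [h1, hz] at h2
      exact (hpw j s).1 h2.symm) (by
      show Γ 0 - π x = Γ 1 - π x
      rw [Γ.source, Γ.target])
    refine ⟨k, hk, ?_⟩
    have h1 := wind_poly F hF Γ.toContinuousMap (by
      show Γ 0 = Γ 1
      rw [Γ.source, Γ.target]) (π x) ε (hstay j x x Γ hΓ) (by
      intro u hu hne
      rw [hFe, hFe, hz] at hu
      have := hsep (π x) u hz hu (Ne.symm hne)
      linarith) k hk ((pw δ j).toContinuousMap - ContinuousMap.const I z) (by
      intro s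
      show pw δ j s - z = F.eval (Γ s) - F.eval (π x)
      rw [hFe, hFe, hz, hΓ])
    exact hWun _ _ _ (wind_pw z δ hw ha.1 j) h1
  have hdvd : ∀ j x, Tr f n (pw δ j) x x → ldeg F (π x) ∣ j := by
    rintro j x ⟨Γ, hΓ⟩
    obtain ⟨k, -, hk⟩ := hwind j x Γ hΓ
    exact Int.natCast_dvd_natCast.1 ⟨k, hk⟩
  -- the permutation
  obtain ⟨T, hTinj, hT⟩ := exists_transport h hTR n hav
  have hfin : Finite {x // it f n x = a} := by
    apply Set.Finite.to_subtype
    refine (fibre F a).finite_toSet.subset ?_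
    intro x hx
    rw [Finset.mem_coe, hL4 F hF, hFe]
    exact hx
  have hper : ∀ x : {x // it f n x = a}, 0 < Function.minimalPeriod T x := fun x =>
    Function.minimalPeriod_pos_of_mem_periodicPts (hTinj.mem_periodicPts x)
  have hperdvd : ∀ x : {x // it f n x = a}, ldeg F (π x) ∣ Function.minimalPeriod T x := by
    intro x
    apply hdvd _ x.1
    rw [hT]
    exact congrArg Subtype.val (Function.iterate_minimalPeriod (f := T) (x := x)).symm
  set A := fibre F a with hA
  have hAmem : ∀ x, x ∈ A ↔ it f n x = a := fun x => by rw [hA, hL4 F hF, hFe]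
  have hsub : ∀ x : {x // it f n x = a},
      (Finset.range (Function.minimalPeriod T x)).image (fun j => (T^[j] x).1) ⊆
        A.filter (fun y => π y = π x) := by
    intro x y hy
    obtain ⟨j, -, rfl⟩ := Finset.mem_image.1 hy
    rw [Finset.mem_filter, hAmem]
    exact ⟨(T^[j] x).2, hend j x _ ((hT j x _).2 rfl)⟩
  have hcard : ∀ x : {x // it f n x = a},
      ((Finset.range (Function.minimalPeriod T x)).image (fun j => (T^[j] x).1)).card =
        Function.minimalPeriod T x := by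
    intro x
    rw [Finset.card_image_of_injOn, Finset.card_range]
    intro i hi j hj hij
    rw [Finset.coe_range] at hi hj
    exact Function.iterate_injOn_Iio_minimalPeriod hi hj (Subtype.ext hij)
  have hge : ∀ x : {x // it f n x = a},
      Function.minimalPeriod T x ≤ (A.filter (fun y => π y = π x)).card := by
    intro x
    rw [← hcard x]
    exact Finset.card_le_card (hsub x)
  have hnear : ∀ u, it f n u = z → ∃ x, it f n x = a ∧ π x = u := by
    intro u hu
    obtain ⟨x, hx, hd⟩ := exists_root_near F hF a hε u (by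
      rw [hFe, hu, norm_sub_rev]; exact ha.2)
    rw [hFe] at hx
    refine ⟨x, hx, (huniq x u hx hu ?_).symm⟩
    rw [norm_sub_rev]
    exact hd
  have hle : ∀ u ∈ fibre F z, ldeg F u ≤ (A.filter (fun y => π y = u)).card := by
    intro u hu
    rw [hL4 F hF, hFe] at hu
    obtain ⟨x, hx, rfl⟩ := hnear u hu
    exact (Nat.le_of_dvd (hper ⟨x, hx⟩) (hperdvd ⟨x, hx⟩)).trans (hge ⟨x, hx⟩)
  have hsum : ∑ u ∈ fibre F z, ldeg F u = ∑ u ∈ fibre F z, (A.filter (fun y => π y = u)).card := by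
    rw [hL5 F hF, ← Finset.card_eq_sum_card_fiberwise, hL2 f n]
    · have h13 := (hTR f P h).2.2.2.2.2.2.2.2.2.2.2.1 n a haP
      rw [hA]
      exact h13.1.symm
    · intro x hx
      rw [Finset.mem_coe, hL4 F hF, hFe]
      exact (hπ x ((hAmem x).1 hx)).1
  have heq : ∀ u ∈ fibre F z, ldeg F u = (A.filter (fun y => π y = u)).card :=
    (Finset.sum_eq_sum_iff_of_le hle).1 hsum
  have hmin : ∀ x : {x // it f n x = a}, Function.minimalPeriod T x = ldeg F (π x) := by
    intro x
    apply le_antisymm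
    · refine (hge x).trans (heq _ ?_).ge
      rw [hL4 F hF, hFe]
      exact (hπ x.1 x.2).1
    · exact Nat.le_of_dvd (hper x) (hperdvd x)
  have hTrdvd : ∀ x j, it f n x = a → (Tr f n (pw δ j) x x ↔ ldeg F (π x) ∣ j) := by
    intro x j hx
    refine ⟨hdvd j x, fun hd => ?_⟩
    have h1 := hmin ⟨x, hx⟩
    have h2 : Function.IsPeriodicPt T j ⟨x, hx⟩ := by
      rw [Function.isPeriodicPt_iff_minimalPeriod_dvd, h1]
      exact hd
    exact (hT j ⟨x, hx⟩ x).2 (congrArg Subtype.val h2.eq).symm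
  refine ⟨π, hπ, huniq, hnear, ?_, hTrdvd, ?_⟩
  · intro x x' hx hx'
    constructor
    · intro he
      have h1 : (Finset.range (Function.minimalPeriod T ⟨x, hx⟩)).image
          (fun j => (T^[j] ⟨x, hx⟩).1) = A.filter (fun y => π y = π x) := by
        apply Finset.eq_of_subset_of_card_le (hsub ⟨x, hx⟩)
        rw [hcard ⟨x, hx⟩, hmin ⟨x, hx⟩]
        refine (heq _ ?_).ge
        rw [hL4 F hF, hFe]
        exact (hπ x hx).1
      have h2 : x' ∈ A.filter (fun y => π y = π x) := by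
        rw [Finset.mem_filter, hAmem]
        exact ⟨hx', he.symm⟩
      rw [← h1] at h2
      obtain ⟨j, -, hj⟩ := Finset.mem_image.1 h2
      exact ⟨j, (hT j ⟨x, hx⟩ x').2 hj.symm⟩
    · rintro ⟨j, hj⟩
      exact (hend j x x' hj).symm
  · intro x hx
    obtain ⟨Γ, hΓ⟩ := (hTrdvd x (ldeg F (π x)) hx).2 dvd_rfl
    refine ⟨Γ, hΓ, ?_⟩
    obtain ⟨k, hk, hk'⟩ := hwind _ x Γ hΓ
    have hpos : (0 : ℤ) < ldeg F (π x) := by exact_mod_cast hL6 F hF (π x)
    have hk1 : k = 1 := by
      have : (ldeg F (π x) : ℤ) * k = ldeg F (π x) * 1 := by rw [← hk', mul_one]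
      exact mul_left_cancel₀ hpos.ne' this
    subst hk1
    refine ⟨hP _ (hπ x hx).1, fun s => ⟨?_, hstay _ x x Γ hΓ s⟩, hk⟩
    intro hs
    have h1 := hΓ s
    rw [hs, (hπ x hx).1] at h1
    exact (hpw _ s).1 h1.symm

end PCF.H80
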