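import Mathlib

/-!
# Block RL, part a: invariant equivalence relations of a regular action of a cyclic group
-/

set_option autoImplicit false

namespace PCF.RL80

section Cyc

variable {G X : Type*} [CommGroup G] [IsCyclic G] [Finite G] [MulAction G X]

/-- invariant equivalence relations -/
def InvS (G : Type*) {X : Type*} [CommGroup G] [MulAction G X] (r : Setoid X) : Prop :=
  ∀ (g : G) (x y : X), r x y → r (g • x) (g • y)

/-- the stabiliser of a class -/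
def HH (r : Setoid X) (hr : InvS G r) (x₀ : X) : Subgroup G where
  carrier := {g | r (g • x₀) x₀}
  mul_mem' := by
    intro a b ha hb
    show r ((a * b) • x₀) x₀
    rw [mul_smul]
    exact r.trans (hr a _ _ hb) ha
  one_mem' := by
    show r ((1 : G) • x₀) x₀
    rw [one_smul]
  inv_mem' := by
    intro a ha
    have h := hr a⁻¹ _ _ ha
    rw [inv_smul_smul] at h
    exact r.symm h

omit [IsCyclic G] [Finite G] in
lemma mem_HH {r : Setoid X} {hr : InvS G r} {x₀ : X} {g : G} :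
    g ∈ HH r hr x₀ ↔ r (g • x₀) x₀ := Iff.rfl

omit [IsCyclic G] [Finite G] in
lemma card_HH (r : Setoid X) (hr : InvS G r) (x₀ : X)
    (hreg : Function.Bijective (fun g : G => g • x₀)) :
    Nat.card (HH r hr x₀) = Nat.card {y // r y x₀} := by
  refine Nat.card_congr (Equiv.ofBijective (fun g => ⟨g.1 • x₀, g.2⟩) ⟨?_, ?_⟩)
  · intro a b hab
    exact Subtype.ext (hreg.1 (congrArg Subtype.val hab))
  · rintro ⟨y, hy⟩
    obtain ⟨g, rfl⟩ := hreg.2 y
    exact ⟨⟨g, hy⟩, rfl⟩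

/-- a subgroup of a cyclic group is determined by its order -/
lemma mem_iff (H : Subgroup G) (g : G) : g ∈ H ↔ g ^ Nat.card H = 1 := by
  classical
  have := Fintype.ofFinite G
  constructor
  · intro hg
    have h := pow_card_eq_one' (G := H) (x := ⟨g, hg⟩)
    exact congrArg Subtype.val h
  · intro hg
    have hsub : (Finset.univ.filter fun a : G => a ∈ H) ⊆
        Finset.univ.filter fun a : G => a ^ Nat.card H = 1 := by
      intro a ha
      rw [Finset.mem_filter] at ha ⊢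
      have h := pow_card_eq_one' (G := H) (x := ⟨a, ha.2⟩)
      exact ⟨Finset.mem_univ _, congrArg Subtype.val h⟩
    have hcard : (Finset.univ.filter fun a : G => a ∈ H).card = Nat.card H := by
      rw [Nat.card_eq_fintype_card, Fintype.card_subtype]
    have hle := IsCyclic.card_pow_eq_one_le (α := G) (n := Nat.card H) Nat.card_pos
    have heq := Finset.eq_of_subset_of_card_le hsub (by rw [hcard]; exact hle)
    have hm : g ∈ Finset.univ.filter fun a : G => a ^ Nat.card H = 1 :=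
      Finset.mem_filter.2 ⟨Finset.mem_univ _, hg⟩
    rw [← heq] at hm
    exact (Finset.mem_filter.1 hm).2

lemma le_of_dvd (H K : Subgroup G) (h : Nat.card H ∣ Nat.card K) : H ≤ K := by
  intro g hg
  rw [mem_iff] at hg ⊢
  exact pow_eq_one_iff_of_dvd h hg
where
  pow_eq_one_iff_of_dvd {g : G} {m n : ℕ} (h : m ∣ n) (hg : g ^ m = 1) : g ^ n = 1 := by
    obtain ⟨k, rfl⟩ := h
    rw [pow_mul, hg, one_pow]

lemma card_inf (H K : Subgroup G) :
    Nat.card (H ⊓ K : Subgroup G) = Nat.gcd (Nat.card H) (Nat.card K) := by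
  refine Nat.dvd_antisymm (Nat.dvd_gcd (Subgroup.card_dvd_of_le inf_le_left)
    (Subgroup.card_dvd_of_le inf_le_right)) ?_
  obtain ⟨c, hc⟩ := IsCyclic.exists_generator (α := G)
  have hord : orderOf c = Nat.card G := orderOf_eq_card_of_forall_mem_zpowers hc
  set g := Nat.gcd (Nat.card H) (Nat.card K) with hg
  have hgH : g ∣ Nat.card H := Nat.gcd_dvd_left _ _
  have hgK : g ∣ Nat.card K := Nat.gcd_dvd_right _ _
  have hHG : Nat.card H ∣ Nat.card G := Subgroup.card_subgroup_dvd_card H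
  obtain ⟨m, hm⟩ := hgH.trans hHG
  have hG : 0 < Nat.card G := Nat.card_pos
  have hm0 : m ≠ 0 := by rintro rfl; omega
  have hg0 : g ≠ 0 := by
    intro h
    rw [h, Nat.zero_mul] at hm
    omega
  have hw : orderOf (c ^ m) = g := by
    rw [orderOf_pow_of_dvd hm0 (by rw [hord, hm]; exact Dvd.intro_left _ rfl), hord, hm]
    exact Nat.mul_div_cancel _ (Nat.pos_of_ne_zero hm0)
  have h1 : c ^ m ∈ H := by
    rw [mem_iff]
    exact orderOf_dvd_iff_pow_eq_one.1 (hw ▸ hgH)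
  have h2 : c ^ m ∈ K := by
    rw [mem_iff]
    exact orderOf_dvd_iff_pow_eq_one.1 (hw ▸ hgK)
  have h3 := Subgroup.orderOf_dvd_natCard (H ⊓ K) (Subgroup.mem_inf.2 ⟨h1, h2⟩)
  rwa [hw] at h3

/-- the relation given by a subgroup -/
def relOf (K : Subgroup G) (X : Type*) [MulAction G X] : Setoid X where
  r x y := ∃ c ∈ K, c • x = y
  iseqv := {
    refl := fun x => ⟨1, K.one_mem, one_smul _ _⟩
    symm := fun {x y} ⟨c, hc, h⟩ => ⟨c⁻¹, K.inv_mem hc, by rw [← h, inv_smul_smul]⟩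
    trans := fun {x y z} ⟨c, hc, h⟩ ⟨d, hd, h'⟩ => ⟨d * c, K.mul_mem hd hc, by
      rw [mul_smul, h, h']⟩ }

omit [IsCyclic G] [Finite G] in
lemma le_relOf (K : Subgroup G) (r : Setoid X) (hr : InvS G r) (x₀ : X)
    (hreg : Function.Bijective (fun g : G => g • x₀)) (h : HH r hr x₀ ≤ K) :
    r ≤ relOf K X := by
  intro x y hxy
  obtain ⟨a, rfl⟩ := hreg.2 x
  obtain ⟨b, rfl⟩ := hreg.2 y
  have h1 := hr a⁻¹ _ _ hxy
  simp only [inv_smul_smul] at h1
  have h2 : a⁻¹ * b ∈ HH r hr x₀ := by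
    rw [mem_HH, mul_smul]
    exact r.symm h1
  refine ⟨a⁻¹ * b, h h2, ?_⟩
  simp only
  rw [← mul_smul]
  congr 1
  rw [mul_comm a⁻¹ b, mul_assoc, inv_mul_cancel, mul_one]

/-- inclusion of invariant relations -/
lemma le_of_card_dvd (r₁ r₂ : Setoid X) (h₁ : InvS G r₁) (h₂ : InvS G r₂) (x₀ : X)
    (hreg : Function.Bijective (fun g : G => g • x₀))
    (h : Nat.card {y // r₁ y x₀} ∣ Nat.card {y // r₂ y x₀}) : r₁ ≤ r₂ := by
  rw [← card_HH r₁ h₁ x₀ hreg, ← card_HH r₂ h₂ x₀ hreg] at h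
  have h3 := le_relOf (HH r₂ h₂ x₀) r₁ h₁ x₀ hreg (le_of_dvd _ _ h)
  intro x y hxy
  obtain ⟨c, hc, rfl⟩ := h3 hxy
  obtain ⟨a, rfl⟩ := hreg.2 x
  have h4 := h₂ a _ _ (mem_HH.1 hc)
  simp only
  rw [← mul_smul, mul_comm c a, mul_smul]
  exact r₂.symm h4

omit [IsCyclic G] [Finite G] in
lemma invS_inf {r₁ r₂ : Setoid X} (h₁ : InvS G r₁) (h₂ : InvS G r₂) : InvS G (r₁ ⊓ r₂) :=
  fun g x y h => ⟨h₁ g x y h.1, h₂ g x y h.2⟩

omit [IsCyclic G] [Finite G] in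
lemma invS_sup {r₁ r₂ : Setoid X} (h₁ : InvS G r₁) (h₂ : InvS G r₂) : InvS G (r₁ ⊔ r₂) := by
  intro g
  have h3 : r₁ ⊔ r₂ ≤ Setoid.comap (fun x => g • x) (r₁ ⊔ r₂) := by
    refine sup_le (fun x y h => ?_) (fun x y h => ?_)
    · exact (le_sup_left : r₁ ≤ r₁ ⊔ r₂) (h₁ g x y h)
    · exact (le_sup_right : r₂ ≤ r₁ ⊔ r₂) (h₂ g x y h)
  exact fun x y h => h3 h

lemma card_inf_class (r₁ r₂ : Setoid X) (h₁ : InvS G r₁) (h₂ : InvS G r₂) (x₀ : X)
    (hreg : Function.Bijective (fun g : G => g • x₀)) :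
    Nat.card {y // (r₁ ⊓ r₂) y x₀} =
      Nat.gcd (Nat.card {y // r₁ y x₀}) (Nat.card {y // r₂ y x₀}) := by
  rw [← card_HH r₁ h₁ x₀ hreg, ← card_HH r₂ h₂ x₀ hreg,
    ← card_HH (r₁ ⊓ r₂) (invS_inf h₁ h₂) x₀ hreg, ← card_inf]
  rfl

lemma card_sup_class (r₁ r₂ : Setoid X) (h₁ : InvS G r₁) (h₂ : InvS G r₂) (x₀ : X)
    (hreg : Function.Bijective (fun g : G => g • x₀)) :
    Nat.card {y // (r₁ ⊔ r₂) y x₀} =
      Nat.lcm (Nat.card {y // r₁ y x₀}) (Nat.card {y // r₂ y x₀}) := by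
  classical
  have := Fintype.ofFinite G
  rw [← card_HH r₁ h₁ x₀ hreg, ← card_HH r₂ h₂ x₀ hreg,
    ← card_HH (r₁ ⊔ r₂) (invS_sup h₁ h₂) x₀ hreg]
  set H₁ := HH r₁ h₁ x₀
  set H₂ := HH r₂ h₂ x₀
  set H := HH (r₁ ⊔ r₂) (invS_sup h₁ h₂) x₀ with hH
  set ℓ := Nat.lcm (Nat.card H₁) (Nat.card H₂) with hℓ
  have hle₁ : H₁ ≤ H := fun g hg => (le_sup_left : r₁ ≤ r₁ ⊔ r₂) (mem_HH.1 hg)
  have hle₂ : H₂ ≤ H := fun g hg => (le_sup_right : r₂ ≤ r₁ ⊔ r₂) (mem_HH.1 hg)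
  have hdvd : ℓ ∣ Nat.card H :=
    Nat.lcm_dvd (Subgroup.card_dvd_of_le hle₁) (Subgroup.card_dvd_of_le hle₂)
  have hℓ0 : 0 < ℓ := Nat.lcm_pos Nat.card_pos Nat.card_pos
  let K : Subgroup G := {
    carrier := {c | c ^ ℓ = 1}
    mul_mem' := by
      intro a b ha hb
      show (a * b) ^ ℓ = 1
      rw [mul_pow, (ha : a ^ ℓ = 1), (hb : b ^ ℓ = 1), mul_one]
    one_mem' := one_pow _
    inv_mem' := by
      intro a ha
      show (a⁻¹) ^ ℓ = 1
      rw [inv_pow, (ha : a ^ ℓ = 1), inv_one] }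
  have hmemK : ∀ c, c ∈ K ↔ c ^ ℓ = 1 := fun c => Iff.rfl
  have hK₁ : H₁ ≤ K := by
    intro c hc
    rw [mem_iff] at hc
    obtain ⟨k, hk⟩ := Nat.dvd_lcm_left (Nat.card H₁) (Nat.card H₂)
    rw [hmemK, hℓ, hk, pow_mul, hc, one_pow]
  have hK₂ : H₂ ≤ K := by
    intro c hc
    rw [mem_iff] at hc
    obtain ⟨k, hk⟩ := Nat.dvd_lcm_right (Nat.card H₁) (Nat.card H₂)
    rw [hmemK, hℓ, hk, pow_mul, hc, one_pow]
  have hr : r₁ ⊔ r₂ ≤ relOf K X :=
    sup_le (le_relOf K r₁ h₁ x₀ hreg hK₁) (le_relOf K r₂ h₂ x₀ hreg hK₂)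
  have hHK : H ≤ K := by
    intro c hc
    obtain ⟨d, hd, hdc⟩ := hr (mem_HH.1 hc)
    have h1 : d * c = 1 := hreg.1 (by
      show (d * c) • x₀ = (1 : G) • x₀
      rw [mul_smul, hdc, one_smul])
    have h2 : c = d⁻¹ := (inv_eq_of_mul_eq_one_right h1).symm
    rw [h2]
    exact K.inv_mem hd
  have hcardK : Nat.card K ≤ ℓ := by
    have h1 := IsCyclic.card_pow_eq_one_le (α := G) (n := ℓ) hℓ0
    have h2 : Nat.card K = (Finset.univ.filter fun a : G => a ^ ℓ = 1).card := by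
      rw [Nat.card_eq_fintype_card, Fintype.card_subtype]
      rfl
    rw [h2]
    exact h1
  have h1 := Nat.le_of_dvd Nat.card_pos (Subgroup.card_dvd_of_le hHK)
  have h2 := Nat.le_of_dvd Nat.card_pos hdvd
  omega

end Cyc

end PCF.RL80
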