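import Pool.Agent.Work.MP_80ff4e_al_helper80.TOP2

/-!
# Block TOP: assembly
-/

set_option autoImplicit false

open Polynomial unitInterval

namespace PCF.H80

lemma adm_postCrit {f : ℂ[X]} (hd : 2 ≤ f.natDegree) (hfin : (postCrit f).Finite) :
    Adm f (postCrit f) where
  deg := hd
  fin := hfin
  fwd := by
    rintro z ⟨c, hc, n, hn, rfl⟩
    refine ⟨c, hc, n + 1, by omega, ?_⟩
    unfold it
    rw [Function.iterate_succ_apply']
  crit := by
    intro c hc
    exact ⟨c, hc, 1, le_refl _, rfl⟩

section

variable {f : ℂ[X]} (hL : Stmt_L)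
include hL

lemma ldeg_zero (u : ℂ) : ldeg (itp f 0) u = 1 := by
  have h0 : itp f 0 = X := rfl
  obtain ⟨-, -, -, h4, h5, h6, -⟩ := hL
  have h1 : 1 ≤ (X : ℂ[X]).natDegree := by simp
  have h7 := h5 X h1 u
  have h8 : u ∈ fibre X u := (h4 X h1 u u).2 (by simp)
  rw [natDegree_X] at h7
  have h9 : ldeg X u ≤ ∑ v ∈ fibre X u, ldeg X v :=
    Finset.single_le_sum (fun _ _ => Nat.zero_le _) h8
  rw [h0]
  have h10 := h6 X h1 u
  omega

lemma ldeg_add (hd : 2 ≤ f.natDegree) (m n : ℕ) (u : ℂ) :
    ldeg (itp f (m + n)) u = ldeg (itp f m) (it f n u) * ldeg (itp f n) u := by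
  obtain ⟨h1, h2, h3, -, -, -, -, h8, -⟩ := hL
  have hdeg : ∀ n, 1 ≤ (itp f n).natDegree := by
    intro n
    rw [h2]
    exact Nat.one_le_pow _ _ (by omega)
  rw [h3, h8 _ _ (hdeg m) (hdeg n), h1]

lemma crit_mem {P : Set ℂ} (h : Adm f P) (n : ℕ) :
    ∀ u, 2 ≤ ldeg (itp f n) u → it f n u ∈ P := by
  induction n with
  | zero =>
    intro u hu
    rw [ldeg_zero hL] at hu
    omega
  | succ n ih =>
    intro u hu
    rw [Nat.add_comm, ldeg_add hL h.deg] at hu
    have hstep : it f (n + 1) u = f.eval (it f n u) := by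
      unfold it
      rw [Function.iterate_succ_apply']
    rw [hstep]
    by_cases h1 : 2 ≤ ldeg (itp f n) u
    · exact h.fwd _ (ih u h1)
    · have h2 : 2 ≤ ldeg (itp f 1) (it f n u) := by
        by_contra h3
        have h4 : ldeg (itp f n) u ≤ 1 := by omega
        have h5 : ldeg (itp f 1) (it f n u) ≤ 1 := by omega
        have := Nat.mul_le_mul h5 h4
        omega
      have h3 : itp f 1 = f := by
        show f.comp X = f
        exact comp_X
      rw [h3] at h2
      apply h.crit
      exact (hL.2.2.2.2.2.2.1 f (by have := h.deg; omega) _).1 h2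

end

theorem stmt_TOP_of (hA : Stmt_TOPa) (hTR : Stmt_TR) (hSM : Stmt_SM) (hLC : Stmt_LC)
    (hGEN : Stmt_GEN) (hBIG : Stmt_BIG) (hL : Stmt_L) : Stmt_TOP := by
  intro f t hd hfin ht
  obtain ⟨Y, instY, S, Λ, c1, c2, c3, c4, c5, c6, c7, c8, c9⟩ := hA f t hd hfin ht
  have h := adm_postCrit hd hfin
  have H : Cod f t S Λ :=
    { adm := h
      tnot := ht
      card := c1
      lev := c2
      pref := c3
      act := c4
      faithful := c5
      selfrep := c6
      toLoop := by simpa only [c4] using c7
      ofLoop := by simpa only [c4] using c8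
      path := c9 }
  classical
  obtain ⟨hL1, hL2, hL3, hL4, hL5, hL6, hL7, hL8, hL9⟩ := id hL
  have hdeg : ∀ n, 1 ≤ (itp f n).natDegree := by
    intro n
    rw [hL2]
    exact Nat.one_le_pow _ _ (by omega)
  obtain ⟨gp, hgp, hgen⟩ := hGEN f _ h t ht
  have hgtail : ∀ z ∈ postCrit f, IsTail f t z (gp z) := by
    intro z hz
    obtain ⟨a, η, ρ, δ, h1, h2, h3⟩ := hgp z hz
    exact ⟨a, η, ρ, δ, h1, h2, h3⟩
  have hgenex : ∀ z, ∃ g : IMG f t, z ∈ postCrit f → Ind S Λ (gp z) g := by
    intro z
    by_cases hz : z ∈ postCrit f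
    · obtain ⟨g, hg⟩ := H.ofLoop _ (hgtail z hz).av
      exact ⟨g, fun _ => hg⟩
    · exact ⟨1, fun h => absurd h hz⟩
  choose gen hgenInd using hgenex
  obtain ⟨θ, hθ, hθodo⟩ := hBIG f _ h t ht
  obtain ⟨τ, hτ⟩ := H.ofLoop θ hθ
  have hτ' : Ind S Λ θ τ := hτ
  let T : PCFSys (IMG f t) Y :=
    { S := S
      F := fun z => f.eval z
      P := hfin.toFinset
      deg := fun n u => ldeg (itp f n) u
      fib := fun n z => fibre (itp f n) z
      In := InCl S Λ
      gen := gen
      τ := τ
      faithful := c5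
      selfrep := c6
      two_le := by rw [c1]; exact hd
      mem_fib := by
        intro n z u
        rw [hL4 _ (hdeg n), hL1]
        rfl
      deg_zero := ldeg_zero hL
      deg_add := by
        intro m n u
        exact ldeg_add hL hd m n u
      deg_pos := fun n u => hL6 _ (hdeg n) u
      deg_sum := by
        intro n z
        rw [hL5 _ (hdeg n), hL2, c1]
      fwd := by
        intro z hz
        rw [Set.Finite.mem_toFinset] at hz ⊢
        exact h.fwd z hz
      crit := by
        intro u hu
        rw [Set.Finite.mem_toFinset]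
        exact crit_mem hL h 1 u hu
      RH := by
        intro n
        have := hL9 (itp f n) (hdeg n) hfin.toFinset (by
          intro u hu
          rw [Set.Finite.mem_toFinset, hL1]
          exact crit_mem hL h n u ((hL7 _ (hdeg n) u).2 hu))
        rw [hL2] at this
        rw [c1]
        exact this
      In_conj := fun z g h' hh' => In_conj' H hTR z g h' hh'
      In_single := fun z g hg h' hh' => In_single' H hTR hSM z g hg h' hh'
      In_triv := by
        intro z hz
        rw [Set.Finite.mem_toFinset] at hz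
        exact In_triv' H hTR hSM z hz
      labels := by
        intro n z g hg
        obtain ⟨π, hπ, -⟩ := labels' H hTR hLC n z g hg
        exact ⟨π, hπ⟩
      gen_mem := by
        intro z hz
        rw [Set.Finite.mem_toFinset] at hz
        exact ⟨gp z, hgtail z hz, hgenInd z hz⟩
      gen_top := by
        rw [eq_top_iff]
        rintro g -
        obtain ⟨γ, hγ, hg⟩ := H.toLoop g
        obtain ⟨l, hl, hlγ⟩ := hgen γ hγ
        have key : ∀ l : List (Path t t), (∀ θ ∈ l, ∃ z ∈ postCrit f, θ = gp z ∨ θ = (gp z).symm) →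
            ∃ g' ∈ Subgroup.closure (gen '' (hfin.toFinset : Set ℂ)), Ind S Λ (catL l) g' := by
          intro l
          induction l with
          | nil =>
            intro _
            exact ⟨1, Subgroup.one_mem _, Ind.one H hTR⟩
          | cons θ l ih =>
            intro hl
            obtain ⟨g', hg', hi⟩ := ih fun θ' hθ' => hl θ' (List.mem_cons_of_mem _ hθ')
            obtain ⟨z, hz, hz'⟩ := hl θ List.mem_cons_self
            have hmem : gen z ∈ Subgroup.closure (gen '' (hfin.toFinset : Set ℂ)) :=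
              Subgroup.subset_closure ⟨z, by simpa using hz, rfl⟩
            rcases hz' with rfl | rfl
            · exact ⟨g' * gen z, Subgroup.mul_mem _ hg' hmem, Ind.mul H hTR (hgenInd z hz) hi⟩
            · exact ⟨g' * (gen z)⁻¹, Subgroup.mul_mem _ hg' (Subgroup.inv_mem _ hmem),
                Ind.mul H hTR (Ind.inv H hTR (hgenInd z hz)) hi⟩
        obtain ⟨g', hg', hi⟩ := key l hl
        have : g = g' := by
          apply Ind.unique H hTR hγ hg
          exact hi.congr fun n x y => (hlγ n x y).2
        rw [this]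
        exact hg'
      odo := by
        intro u v huv
        have hv := H.pt_spec v
        rw [← huv] at hv
        obtain ⟨j, hj⟩ := hθodo u.length _ _ (H.pt_spec u) hv
        exact ⟨j, (Ind.act_iff H hTR (pw_av hθ j) (Ind.pow H hTR hτ' j) rfl huv.symm).2 hj⟩ }
  refine ⟨Y, instY, T, c1, rfl, by simp [T], rfl, rfl, Λ, c2, c3, c4, ?_, c7, c8⟩
  intro n z hz
  refine ⟨gen z, ⟨gp z, hgtail z hz, hgenInd z hz⟩, ?_⟩
  exact labels' H hTR hLC n z (gen z) ⟨gp z, hgtail z hz, hgenInd z hz⟩

end PCF.H80
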