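import Pool.Agent.Work.MP_80ff4e_al_helper80.LC
import Pool.Agent.Work.MP_80ff4e_al_helper80.TOPI

/-!
# Block TOP, part 1: elements of the group and loops
-/

set_option autoImplicit false

open Polynomial unitInterval

namespace PCF.H80

/-- The output of `TOPa`. -/
structure Cod (f : ℂ[X]) (t : ℂ) {Y : Type} [Fintype Y] (S : SelfSim (IMG f t) Y)
    (Λ : List Y ≃ Vertex f t) : Prop where
  adm : Adm f (postCrit f)
  tnot : t ∉ postCrit f
  card : Fintype.card Y = f.natDegree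
  lev : ∀ w, (Λ w).1.1 = w.length
  pref : ∀ v w, v <+: w ↔ InSubtree (Λ v) (Λ w)
  act : ∀ (g : IMG f t) (w), Λ (S.wact g w) = g.1 (Λ w)
  faithful : S.Faithful
  selfrep : S.SelfRep
  toLoop : ∀ g : IMG f t, ∃ γ : Path t t, Av (postCrit f) γ ∧
    ∀ w, Tr f w.length γ (Λ w).1.2 (Λ (S.wact g w)).1.2
  ofLoop : ∀ γ : Path t t, Av (postCrit f) γ → ∃ g : IMG f t,
    ∀ w, Tr f w.length γ (Λ w).1.2 (Λ (S.wact g w)).1.2
  path : ∀ w : List Y, ∃ ℓ : Path t (Λ w).1.2, Av (postCrit f) ℓ ∧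
    ∀ u : List Y, Tr f u.length ℓ (Λ u).1.2 (Λ (w ++ u)).1.2

/-- The loop `γ` induces the element `g`. -/
def Ind {f : ℂ[X]} {t : ℂ} {Y : Type} [Fintype Y] (S : SelfSim (IMG f t) Y)
    (Λ : List Y ≃ Vertex f t) (γ : Path t t) (g : IMG f t) : Prop :=
  ∀ w : List Y, Tr f w.length γ (Λ w).1.2 (Λ (S.wact g w)).1.2

section

variable {f : ℂ[X]} {t : ℂ} {Y : Type} [Fintype Y] {S : SelfSim (IMG f t) Y}
  {Λ : List Y ≃ Vertex f t}

lemma Cod.pt_spec (H : Cod f t S Λ) (w : List Y) : it f w.length (Λ w).1.2 = t := by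
  have := (Λ w).2
  rwa [H.lev] at this

lemma Cod.pt_inj (H : Cod f t S Λ) {w w' : List Y} (hl : w.length = w'.length)
    (hp : (Λ w).1.2 = (Λ w').1.2) : w = w' := by
  apply Λ.injective
  apply Subtype.ext
  apply Prod.ext
  · rw [H.lev, H.lev, hl]
  · exact hp

lemma Cod.pt_surj (H : Cod f t S Λ) {n : ℕ} {x : ℂ} (hx : it f n x = t) :
    ∃ w : List Y, w.length = n ∧ (Λ w).1.2 = x := by
  obtain ⟨w, hw⟩ := Λ.surjective ⟨(n, x), hx⟩
  refine ⟨w, ?_, ?_⟩
  · rw [← H.lev, hw]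
  · rw [hw]

lemma Cod.pt_append (H : Cod f t S Λ) (w u : List Y) :
    it f u.length (Λ (w ++ u)).1.2 = (Λ w).1.2 := by
  have h := ((H.pref w (w ++ u)).1 (List.prefix_append w u)).2
  rw [H.lev, H.lev, List.length_append, Nat.add_sub_cancel_left] at h
  exact h

variable (H : Cod f t S Λ) (hTR : Stmt_TR)
include H hTR

lemma Ind.unique {γ : Path t t} {g h : IMG f t} (hγ : Av (postCrit f) γ) (h1 : Ind S Λ γ g)
    (h2 : Ind S Λ γ h) : g = h := by
  have key : ∀ w, S.wact g w = S.wact h w := by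
    intro w
    apply H.pt_inj (by simp)
    exact tr_unique H.adm hTR hγ (h1 w) (h2 w)
  have h3 : h⁻¹ * g = 1 := by
    apply H.faithful
    intro w
    rw [S.wact_mul, key, S.wact_inv_wact]
  exact (inv_mul_eq_one.1 h3).symm

lemma Ind.mul {γ δ : Path t t} {g h : IMG f t} (h1 : Ind S Λ γ g)
    (h2 : Ind S Λ δ h) : Ind S Λ (γ.trans δ) (h * g) := by
  intro w
  rw [S.wact_mul]
  apply tr_trans H.adm hTR (h1 w)
  have := h2 (S.wact g w)
  rwa [S.length_wact] at this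

lemma Ind.inv {γ : Path t t} {g : IMG f t} (h1 : Ind S Λ γ g) : Ind S Λ γ.symm g⁻¹ := by
  intro w
  have := tr_symm H.adm hTR (h1 (S.wact g⁻¹ w))
  rwa [S.wact_wact_inv, S.length_wact] at this

lemma Ind.one : Ind S Λ (Path.refl t) 1 := by
  intro w
  rw [S.wact_one]
  exact tr_refl H.adm hTR (H.pt_spec w)

omit H hTR in
lemma Ind.congr {γ δ : Path t t} {g : IMG f t} (h1 : Ind S Λ γ g)
    (hc : ∀ n x y, Tr f n γ x y → Tr f n δ x y) : Ind S Λ δ g := fun w => hc _ _ _ (h1 w)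

lemma Ind.pow {γ : Path t t} {g : IMG f t} (h1 : Ind S Λ γ g) (j : ℕ) :
    Ind S Λ (pw γ j) (g ^ j) := by
  induction j with
  | zero =>
    rw [pow_zero]
    exact Ind.one H hTR
  | succ j ih =>
    rw [pow_succ']
    exact Ind.mul H hTR ih h1

lemma Ind.act_iff {γ : Path t t} {g : IMG f t} (hγ : Av (postCrit f) γ) (h1 : Ind S Λ γ g)
    {n : ℕ} {w w' : List Y} (hw : w.length = n) (hw' : w'.length = n) :
    S.wact g w = w' ↔ Tr f n γ (Λ w).1.2 (Λ w').1.2 := by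
  subst hw
  constructor
  · intro h2
    have := h1 w
    rwa [h2] at this
  · intro h2
    apply H.pt_inj (by rw [S.length_wact, hw'])
    exact tr_unique H.adm hTR hγ (h1 w) h2

/-- Sections: if `γ` induces `g` and `Γ` is the lift of `γ` at the vertex `w`, then the section
of `g` at `w` is induced by `ℓ_w Γ ℓ_{g w}⁻¹`. -/
lemma Ind.sec {γ : Path t t} {g : IMG f t} (hγ : Av (postCrit f) γ) (h1 : Ind S Λ γ g)
    (w : List Y) (ℓ : Path t (Λ w).1.2)
    (hℓ : ∀ u : List Y, Tr f u.length ℓ (Λ u).1.2 (Λ (w ++ u)).1.2)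
    (ℓ' : Path t (Λ (S.wact g w)).1.2)
    (hℓ' : ∀ u : List Y, Tr f u.length ℓ' (Λ u).1.2 (Λ (S.wact g w ++ u)).1.2)
    (Γ : Path (Λ w).1.2 (Λ (S.wact g w)).1.2) (hΓ : ∀ s, it f w.length (Γ s) = γ s) :
    Ind S Λ ((ℓ.trans Γ).trans ℓ'.symm) (S.wsec g w) := by
  intro u
  have h2 : Tr f u.length Γ (Λ (w ++ u)).1.2 (Λ (S.wact g w ++ S.wact (S.wsec g w) u)).1.2 := by
    rw [lift_tr H.adm hTR hγ hΓ (H.pt_append w u), ← S.wact_append]
    have := h1 (w ++ u)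
    rwa [List.length_append, Nat.add_comm] at this
  have h3 := tr_symm H.adm hTR (hℓ' (S.wact (S.wsec g w) u))
  rw [S.length_wact] at h3
  exact tr_trans H.adm hTR (tr_trans H.adm hTR (hℓ u) h2) h3

end

end PCF.H80
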