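import Pool.Agent.Work.MP_80ff4e_al_helper80.TOP1

/-!
# Block TOP, part 2: inertia elements
-/

set_option autoImplicit false

open Polynomial unitInterval

namespace PCF.H80

/-- A small loop around `z` with a tail `η`. -/
def IsTail (f : ℂ[X]) (t z : ℂ) (θ : Path t t) : Prop :=
  ∃ (a : ℂ) (η : Path t a) (ρ : ℝ) (δ : Path a a), Av (postCrit f) η ∧
    Small (postCrit f) z ρ δ ∧ θ = (η.trans δ).trans η.symm

lemma IsTail.av {f : ℂ[X]} {t z : ℂ} {θ : Path t t} (h : IsTail f t z θ) :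
    Av (postCrit f) θ := by
  obtain ⟨a, η, ρ, δ, hη, hδ, rfl⟩ := h
  exact trans_av (trans_av hη (small_av hδ)) (symm_av hη)

/-- The inertia class of `z`. -/
def InCl {f : ℂ[X]} {t : ℂ} {Y : Type} [Fintype Y] (S : SelfSim (IMG f t) Y)
    (Λ : List Y ≃ Vertex f t) (z : ℂ) : Set (IMG f t) :=
  {g | ∃ θ, IsTail f t z θ ∧ Ind S Λ θ g}

section

variable {f : ℂ[X]} {t : ℂ} {Y : Type} [Fintype Y] {S : SelfSim (IMG f t) Y}
  {Λ : List Y ≃ Vertex f t} (H : Cod f t S Λ) (hTR : Stmt_TR)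
include H hTR

/-- Conjugates of loops with tails, on the level of transports. -/
lemma tr_tail_conj {n : ℕ} {a b : ℂ} {γ : Path t b} {η : Path b a} {δ : Path a a}
    (hγ : Av (postCrit f) γ) (hη : Av (postCrit f) η) (hδ : Av (postCrit f) δ) {x y : ℂ} :
    Tr f n ((γ.trans ((η.trans δ).trans η.symm)).trans γ.symm) x y ↔
      Tr f n (((γ.trans η).trans δ).trans (γ.trans η).symm) x y := by
  have h := H.adm
  rw [Path.trans_symm]
  simp only [tr_trans_iff h hTR (trans_av hγ (trans_av (trans_av hη hδ) (symm_av hη)))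
    (symm_av hγ), tr_trans_iff h hTR hγ (trans_av (trans_av hη hδ) (symm_av hη)),
    tr_trans_iff h hTR (trans_av hη hδ) (symm_av hη), tr_trans_iff h hTR hη hδ,
    tr_trans_iff h hTR (trans_av (trans_av hγ hη) hδ) (trans_av (symm_av hη) (symm_av hγ)),
    tr_trans_iff h hTR (trans_av hγ hη) hδ, tr_trans_iff h hTR (symm_av hη) (symm_av hγ),
    tr_trans_iff h hTR hγ hη, tr_symm_iff h hTR]
  constructor
  · rintro ⟨y1, ⟨y2, h1, y3, ⟨y4, h2, h3⟩, h4⟩, h5⟩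
    exact ⟨y3, ⟨y4, ⟨y2, h1, h2⟩, h3⟩, y1, h4, h5⟩
  · rintro ⟨y3, ⟨y4, ⟨y2, h1, h2⟩, h3⟩, y1, h4, h5⟩
    exact ⟨y1, ⟨y2, h1, y3, ⟨y4, h2, h3⟩, h4⟩, h5⟩

lemma In_conj' (z : ℂ) (g : IMG f t) : ∀ h ∈ InCl S Λ z, g * h * g⁻¹ ∈ InCl S Λ z := by
  rintro h ⟨θ, ⟨a, η, ρ, δ, hη, hδ, rfl⟩, hθ⟩
  obtain ⟨γ, hγ, hg⟩ := H.toLoop g
  have hg' : Ind S Λ γ g := hg
  have h1 := Ind.mul H hTR (Ind.mul H hTR (Ind.inv H hTR hg') hθ) hg'
  refine ⟨((γ.symm.trans η).trans δ).trans (γ.symm.trans η).symm,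
    ⟨a, γ.symm.trans η, ρ, δ, trans_av (symm_av hγ) hη, hδ, rfl⟩, ?_⟩
  rw [mul_assoc]
  apply h1.congr
  intro n x y h2
  rw [← tr_tail_conj H hTR (symm_av hγ) hη (small_av hδ), Path.symm_symm]
  exact h2

lemma In_single' (hSM : Stmt_SM) (z : ℂ) :
    ∀ g ∈ InCl S Λ z, ∀ h ∈ InCl S Λ z, ∃ k, h = k * g * k⁻¹ := by
  rintro g ⟨θ, ⟨a, η, ρ, δ, hη, hδ, rfl⟩, hθ⟩ h ⟨θ', ⟨b, η', ρ', δ', hη', hδ', rfl⟩, hθ'⟩
  obtain ⟨ς, hς, -, hc⟩ := (hSM f _ H.adm).2.1 z a b ρ ρ' δ δ' hδ hδ'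
  have hδa := small_av hδ
  have hδa' := small_av hδ'
  -- the conjugating loop
  have hκ : Av (postCrit f) ((η.trans ς).trans η'.symm) := trans_av (trans_av hη hς) (symm_av hη')
  obtain ⟨k, hk⟩ := H.ofLoop _ hκ
  have hk' : Ind S Λ ((η.trans ς).trans η'.symm) k := hk
  refine ⟨k, ?_⟩
  have h1 := Ind.mul H hTR (Ind.mul H hTR hk' hθ') (Ind.inv H hTR hk')
  have h2 : g = k⁻¹ * (h * k) := by
    apply Ind.unique H hTR (trans_av (trans_av hη hδa) (symm_av hη)) hθ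
    apply h1.congr
    intro n x y h3
    have h := H.adm
    rw [Path.trans_symm, Path.trans_symm, Path.symm_symm] at h3
    simp only [tr_trans_iff h hTR (trans_av (trans_av (trans_av hη hς) (symm_av hη'))
        (trans_av (trans_av hη' hδa') (symm_av hη'))) (trans_av hη' (trans_av (symm_av hς)
        (symm_av hη))),
      tr_trans_iff h hTR (trans_av (trans_av hη hς) (symm_av hη'))
        (trans_av (trans_av hη' hδa') (symm_av hη')),
      tr_trans_iff h hTR (trans_av hη hς) (symm_av hη'), tr_trans_iff h hTR hη hς,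
      tr_trans_iff h hTR (trans_av hη' hδa') (symm_av hη'), tr_trans_iff h hTR hη' hδa',
      tr_trans_iff h hTR hη' (trans_av (symm_av hς) (symm_av hη)),
      tr_trans_iff h hTR (symm_av hς) (symm_av hη), tr_symm_iff h hTR] at h3
    obtain ⟨y1, ⟨y2, ⟨y3, ⟨y4, e1, e2⟩, e3⟩, y5, ⟨y6, e4, e5⟩, e6⟩, y7, e7, y8, e8, e9⟩ := h3
    have f1 := tr_unique h hTR hη' e3 e4
    subst f1
    have f2 := tr_unique h hTR hη' e6 e7
    subst f2
    refine tr_trans h hTR (tr_trans h hTR e1 ?_) (tr_symm h hTR e9)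
    rw [hc]
    exact tr_trans h hTR (tr_trans h hTR e2 e5) (tr_symm h hTR e8)
  rw [h2]
  group

lemma In_triv' (hSM : Stmt_SM) (z : ℂ) (hz : z ∉ postCrit f) : ∀ g ∈ InCl S Λ z, g = 1 := by
  rintro g ⟨θ, ⟨a, η, ρ, δ, hη, hδ, rfl⟩, hθ⟩
  apply H.faithful
  intro w
  apply H.pt_inj (by simp)
  have h := H.adm
  have h1 := hθ w
  rw [tr_trans_iff h hTR (trans_av hη (small_av hδ)) (symm_av hη)] at h1
  obtain ⟨y, h2, h3⟩ := h1
  rw [tr_trans_iff h hTR hη (small_av hδ)] at h2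
  obtain ⟨y', h4, h5⟩ := h2
  have h6 := (hSM f _ H.adm).2.2 z a ρ δ hz hδ _ _ _ h5
  subst h6
  rw [tr_symm_iff h hTR] at h3
  exact tr_unique h hTR (symm_av hη) (tr_symm h hTR h3) (tr_symm h hTR h4)

/-- The labels of an inertia element, with the geometric property. -/
lemma labels' (hLC : Stmt_LC) (n : ℕ) (z : ℂ) (g : IMG f t) (hg : g ∈ InCl S Λ z) :
    ∃ π : List Y → ℂ, Labels S (fun x => f.eval x) (fun n u => ldeg (itp f n) u) (InCl S Λ) n z g π ∧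
      ∀ ε : ℝ, 0 < ε → ∃ (t' : ℂ) (ρ : Path t t'), Av (postCrit f) ρ ∧ ‖t' - z‖ < ε ∧
        ∀ w, w.length = n → ∃ y, Tr f n ρ (Λ w).1.2 y ∧ ‖y - π w‖ < ε := by
  obtain ⟨θ, ⟨a, η, ρ, δ, hη, hδ, rfl⟩, hθ⟩ := hg
  have h := H.adm
  have hδa := small_av hδ
  obtain ⟨π, h1, h2, h3, h4, h5, h6⟩ := hLC f _ h n z a ρ δ hδ
  have hsgex : ∀ w : List Y, ∃ x, w.length = n → Tr f n η (Λ w).1.2 x := by
    intro w
    by_cases hw : w.length = n
    · subst hw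
      obtain ⟨x, hx⟩ := tr_exists h hTR hη (H.pt_spec w)
      exact ⟨x, fun _ => hx⟩
    · exact ⟨0, fun h => absurd h hw⟩
  choose sg hsg using hsgex
  have hsg' : ∀ w : List Y, w.length = n → it f n (sg w) = a :=
    fun w hw => (tr_ends h hTR (hsg w hw)).2
  have hact : ∀ (j : ℕ) (w w' : List Y), w.length = n → w'.length = n →
      (S.wact (g ^ j) w = w' ↔ Tr f n (pw δ j) (sg w) (sg w')) := by
    intro j w w' hw hw'
    rw [Ind.act_iff H hTR (pw_av (trans_av (trans_av hη hδa) (symm_av hη)) j)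
      (Ind.pow H hTR hθ j) hw hw',
      tr_pw_conj h hTR (trans_av (trans_av hη hδa) (symm_av hη)) hδa hη (fun _ _ => Iff.rfl) j,
      tr_conj_iff h hTR (pw_av hδa j) hη (hsg w hw) (hsg w' hw')]
  refine ⟨fun w => π (sg w), ⟨?_, ?_, ?_, ?_, ?_⟩, ?_⟩
  · intro w hw
    exact h1 _ (hsg' w hw)
  · intro u hu
    obtain ⟨x, hx, hxu⟩ := h2 u hu
    obtain ⟨y, hy⟩ := tr_exists h hTR (symm_av hη) hx
    rw [tr_symm_iff h hTR] at hy
    obtain ⟨w, hw, hwy⟩ := H.pt_surj (tr_ends h hTR hy).1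
    refine ⟨w, hw, ?_⟩
    rw [← hwy] at hy
    show π (sg w) = u
    rw [tr_unique h hTR hη (hsg w hw) hy, hxu]
  · intro w w' hw hw'
    rw [h3 _ _ (hsg' w hw) (hsg' w' hw')]
    simp only [hact _ w w' hw hw']
  · intro w j hw
    rw [hact j w w hw hw]
    exact h4 _ j (hsg' w hw)
  · intro w hw
    obtain ⟨Γ, hΓ, a', η', ρ', δ', hη', hδ', heq⟩ := h5 (sg w) (hsg' w hw)
    set L := ldeg (itp f n) (π (sg w)) with hL
    have hfix : S.wact (g ^ L) w = w := (hact L w w hw hw).2 ((h4 _ L (hsg' w hw)).2 dvd_rfl)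
    -- `g ^ L` is induced by `η (pw δ L) η⁻¹`
    have hind : Ind S Λ ((η.trans (pw δ L)).trans η.symm) (g ^ L) := by
      apply (Ind.pow H hTR hθ L).congr
      intro m x y
      exact (tr_pw_conj h hTR (trans_av (trans_av hη hδa) (symm_av hη)) hδa hη
        (fun _ _ => Iff.rfl) L x y).1
    subst hw
    obtain ⟨ζ, hζ⟩ := hsg w rfl
    obtain ⟨ℓ, hℓav, hℓ⟩ := H.path w
    have hlift := lift_trans (lift_trans hζ hΓ) (lift_symm hζ)
    have hsec : Ind S Λ ((ℓ.trans ((ζ.trans Γ).trans ζ.symm)).trans ℓ.symm)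
        (S.wsec (g ^ L) w) := by
      -- transfer along `hfix`
      have key : ∀ w' : List Y, S.wact (g ^ L) w = w' → w' = w →
          ∀ (ℓ' : Path t (Λ w').1.2)
            (_ : ∀ u : List Y, Tr f u.length ℓ' (Λ u).1.2 (Λ (w' ++ u)).1.2)
            (Γ' : Path (Λ w).1.2 (Λ w').1.2) (_ : ∀ s, it f w.length (Γ' s) =
              ((η.trans (pw δ L)).trans η.symm) s),
            Ind S Λ ((ℓ.trans Γ').trans ℓ'.symm) (S.wsec (g ^ L) w) := by
        rintro w' rfl _ ℓ' hℓ' Γ' hΓ'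
        exact Ind.sec H hTR (trans_av (trans_av hη (pw_av hδa L)) (symm_av hη)) hind w ℓ hℓ
          ℓ' hℓ' Γ' hΓ'
      exact key w hfix rfl ℓ hℓ _ hlift
    have hζav : Av (postCrit f) ζ := lift_av h hTR hη hζ
    refine ⟨(((ℓ.trans ζ).trans η').trans δ').trans ((ℓ.trans ζ).trans η').symm,
      ⟨a', (ℓ.trans ζ).trans η', ρ', δ', trans_av (trans_av hℓav hζav) hη', hδ', rfl⟩, ?_⟩
    apply hsec.congr
    intro m x y h7
    have hΓav : Av (postCrit f) Γ := lift_av h hTR (pw_av hδa L) hΓ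
    rw [tr_tail_conj H hTR hℓav hζav hΓav] at h7
    rw [← tr_tail_conj H hTR (trans_av hℓav hζav) hη' (small_av hδ')]
    rw [tr_trans_iff h hTR (trans_av (trans_av hℓav hζav) hΓav)
      (symm_av (trans_av hℓav hζav))] at h7
    obtain ⟨y1, h8, h9⟩ := h7
    rw [tr_trans_iff h hTR (trans_av hℓav hζav) hΓav] at h8
    obtain ⟨y2, h10, h11⟩ := h8
    rw [heq] at h11
    exact tr_trans h hTR (tr_trans h hTR h10 h11) h9
  · intro ε hε
    obtain ⟨a', ς, ha', -, hς, hy⟩ := h6 ε hε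
    refine ⟨a', η.trans ς, trans_av hη hς, ha', ?_⟩
    intro w hw
    obtain ⟨y, hy1, hy2⟩ := hy (sg w) (hsg' w hw)
    exact ⟨y, tr_trans h hTR (hsg w hw) hy1, hy2⟩

end

end PCF.H80
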